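import Pool.Agent.Horo.DStmts

open Topology Filter Set Complex

namespace Horo

section

variable {C : Type} [TopologicalSpace C] [AddAction ℝ C] (D : Diagram C)

lemma abd_pt_zero (y : C) : ((D.pt y 0).2 : ℝ) = 0 := by
  simp [Diagram.pt]

lemma abd_pt_fst (x : C) (s : ℝ) : (D.pt x s).1 = x := rfl

lemma abd_pt_snd {x : C} {s : ℝ} (h0 : 0 ≤ s) (h1 : s ≤ D.wid x) :
    ((D.pt x s).2 : ℝ) = s / D.wid x := by
  have h := D.wid_pos x
  simp only [Diagram.pt]
  rw [Set.coe_projIcc, min_eq_right, max_eq_right]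
  · positivity
  · rw [div_le_one h]; exact h1

lemma abd_pt_eq {x : C} {τ : unitInterval} : D.pt x (τ * D.wid x) = (x, τ) := by
  have h := D.wid_pos x
  have h1 := τ.2.1
  have h2 := τ.2.2
  apply Prod.ext
  · rfl
  · apply Subtype.ext
    rw [abd_pt_snd D (mul_nonneg h1 h.le)]
    · field_simp
    · nlinarith

lemma abd_cases (q : D.X) : (∃ x s, 0 < s ∧ s < D.wid x ∧ q = D.proj (D.pt x s)) ∨
    ∃ y, q = D.proj (D.pt y 0) := by
  induction q using Quotient.inductionOn with
  | _ p =>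
  obtain ⟨x, τ⟩ := p
  have h := D.wid_pos x
  rcases eq_or_lt_of_le τ.2.1 with h0 | h0
  · right
    refine ⟨x, ?_⟩
    have : D.pt x 0 = (x, τ) := by
      rw [← abd_pt_eq D, ← h0, zero_mul]
    rw [this]
    rfl
  · rcases eq_or_lt_of_le τ.2.2 with h1 | h1
    · right
      refine ⟨D.up x, ?_⟩
      apply Quotient.sound
      right
      refine ⟨Or.inr h1, Or.inl (abd_pt_zero D _), ?_⟩
      have e1 : D.base (x, τ) = D.up x := by
        unfold Diagram.base
        rw [if_neg]
        exact h0.ne'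
      have e2 : D.base (D.pt (D.up x) 0) = D.up x := by
        unfold Diagram.base
        rw [if_pos (abd_pt_zero D _)]
        rfl
      rw [e1, e2]
    · left
      refine ⟨x, τ * D.wid x, mul_pos h0 h, by nlinarith, ?_⟩
      rw [abd_pt_eq]
      rfl

lemma abd_int_ne_seam {x y : C} {s : ℝ} (h0 : 0 < s) (h1 : s < D.wid x)
    (h : D.proj (D.pt x s) = D.proj (D.pt y 0)) : False := by
  have hw := D.wid_pos x
  have h2 : ((D.pt x s).2 : ℝ) = s / D.wid x := abd_pt_snd D h0.le h1.le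
  have h3 : (0 : ℝ) < (D.pt x s).2 := by rw [h2]; positivity
  have h4 : ((D.pt x s).2 : ℝ) < 1 := by rw [h2, div_lt_one hw]; exact h1
  rcases Quotient.exact h with h5 | ⟨h5, -, -⟩
  · rw [h5, abd_pt_zero] at h3
    exact lt_irrefl _ h3
  · rcases h5 with h5 | h5
    · rw [h5] at h3; exact lt_irrefl _ h3
    · rw [h5] at h4; exact lt_irrefl _ h4

lemma abd_seam_eq {y y' : C} (h : D.proj (D.pt y 0) = D.proj (D.pt y' 0)) :
    D.τ.SameCycle y y' := by
  have e2 : ∀ y, D.base (D.pt y 0) = y := by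
    intro y
    unfold Diagram.base
    rw [if_pos (abd_pt_zero D _)]
    rfl
  rcases Quotient.exact h with h5 | ⟨-, -, h5⟩
  · have : y = y' := by
      have := congrArg Prod.fst h5
      exact this
    rw [this]
  · rw [e2, e2] at h5
    exact h5

end

theorem abDiff (C : Type) [TopologicalSpace C] [AddAction ℝ C] (hcl : Stmt_closedRel C)
    (hfs : Stmt_finSupp C) (hci : Stmt_chartInt C) (hcs : Stmt_chartSeam C)
    (hpc : Stmt_primCompat C) (hcn : Stmt_connX C) : Stmt_abDiff C := by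
  intro _ _ _ _ D
  have hT2 : T2Space D.X := t2Space_quotient D.setoid (hcl D)
  refine ⟨inferInstance, hT2, hcn D, ?_⟩
  obtain ⟨-, hlen, hsc⟩ := hfs D
  have hlen_eq : ∀ y y', D.τ.SameCycle y y' → D.len y' = D.len y := by
    intro y y' h
    obtain ⟨j, -, hj⟩ := hsc y y' h
    rw [← hj]
    unfold Diagram.len
    rw [← Equiv.Perm.iterate_eq_pow]
    apply Function.minimalPeriod_apply_iterate
    exact Function.minimalPeriod_pos_iff_mem_periodicPts.mp (hlen y)
  have key : ∀ q : D.X, ∃ (k : ℕ) (e : OpenPartialHomeomorph D.X ℂ), q ∈ e.source ∧ e q = 0 ∧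
      D.IsPrimOn (fun q' => e q' ^ (k + 1)) e.source ∧
      (∀ x s, 0 < s → s < D.wid x → q = D.proj (D.pt x s) → k = 0) ∧
      (∀ y, q = D.proj (D.pt y 0) → k = D.len y - 1) := by
    intro q
    rcases abd_cases D q with ⟨x, s, h0, h1, hq⟩ | ⟨y, hq⟩
    · obtain ⟨e, he1, he2, he3⟩ := hci D x s h0 h1
      refine ⟨0, e, hq ▸ he1, hq ▸ he2, ?_, fun _ _ _ _ _ => rfl, ?_⟩
      · simpa using he3
      · intro y hy
        exact (abd_int_ne_seam D h0 h1 (hq ▸ hy)).elim
    · obtain ⟨e, he1, he2, he3⟩ := hcs D y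
      refine ⟨D.len y - 1, e, hq ▸ he1, hq ▸ he2, ?_, ?_, ?_⟩
      · have : D.len y - 1 + 1 = D.len y := Nat.sub_add_cancel (hlen y)
        rw [this]
        exact he3
      · intro x s h0 h1 hx
        exact (abd_int_ne_seam D h0 h1 (hx.symm.trans hq)).elim
      · intro y' hy'
        rw [hlen_eq y y' (abd_seam_eq D (hq.symm.trans hy'))]
  choose k e he1 he2 he3 he4 he5 using key
  refine ⟨{ ord := k, z := e, mem_source := he1, z_self := he2, compat := ?_ }, ?_, ?_, ?_⟩
  · intro p q x hp hq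
    exact hpc D _ _ _ _ (he3 p) (he3 q) x ⟨hp, hq⟩
  · intro x s h0 h1
    exact he4 _ x s h0 h1 rfl
  · intro y
    exact he5 _ y rfl
  · intro q
    exact he3 q

end Horo
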