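import Pool.Agent.Horo.DStmts

/-! Charts at interior points. -/

open Topology Filter Set Complex

namespace Horo

section

variable {C : Type} [TopologicalSpace C] [AddAction ℝ C]

theorem chartInt_bend_zero (D : Diagram C) (x : C) : D.bend x 0 = 0 := by
  have h := D.bend_add x 0 0
  rw [add_zero, zero_vadd] at h
  linarith

theorem chartInt_kappa (D : Diagram C) (x : C) : 0 ≤ D.κ := by
  have h := D.bend_le x 1
  rw [abs_one, mul_one] at h
  exact (abs_nonneg _).trans h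

theorem chartInt_bend_cont (D : Diagram C) (x : C) : Continuous (D.bend x) := by
  have h : LipschitzWith (Real.toNNReal D.κ) (D.bend x) := by
    apply LipschitzWith.of_dist_le_mul
    intro u v
    rw [Real.dist_eq, Real.dist_eq, Real.coe_toNNReal _ (chartInt_kappa D x)]
    have h1 := D.bend_add x v (u - v)
    have h2 : v + (u - v) = u := by ring
    rw [h2] at h1
    rw [h1, add_sub_cancel_left]
    exact D.bend_le _ _
  exact h.continuous

/-- The second coordinate of an interior point. -/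
theorem chartInt_pt_snd (D : Diagram C) (x : C) (s : ℝ) (h0 : 0 ≤ s) (h1 : s ≤ D.wid x) :
    (((D.pt x s).2 : unitInterval) : ℝ) = s / D.wid x := by
  have hw := D.wid_pos x
  have hmem : s / D.wid x ∈ Icc (0 : ℝ) 1 := ⟨div_nonneg h0 hw.le, (div_le_one hw).2 h1⟩
  show ((projIcc (0 : ℝ) 1 zero_le_one (s / D.wid x) : unitInterval) : ℝ) = s / D.wid x
  rw [projIcc_of_mem zero_le_one hmem]

/-- Interior points are only related to themselves. -/
theorem chartInt_rel (D : Diagram C) {x : C} {s : ℝ} (h0 : 0 < s) (h1 : s < D.wid x)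
    {q : Diagram.Y C} (h : D.proj (D.pt x s) = D.proj q) : D.pt x s = q := by
  have h2 : D.Rel (D.pt x s) q := Quotient.exact h
  rcases h2 with h2 | ⟨h2, -, -⟩
  · exact h2
  · exfalso
    have hw := D.wid_pos x
    have h3 := chartInt_pt_snd D x s h0.le h1.le
    have h4 : 0 < s / D.wid x := div_pos h0 hw
    have h5 : s / D.wid x < 1 := (div_lt_one hw).2 h1
    rcases h2 with h2 | h2 <;> rw [h3] at h2 <;> linarith

end

theorem chartInt (C : Type) [TopologicalSpace C] [AddAction ℝ C] (hCP : Stmt_chartParam)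
    (hN : Stmt_nhdsInt C) (hCl : Stmt_closedRel C) : Stmt_chartInt C := by
  intro _ _ _ D x s hs0 hs1
  have hT2 : T2Space D.X := t2Space_quotient D.setoid (hCl D)
  obtain ⟨r0, hr0, hinj⟩ := BaseSpace.rad (C := C)
  have hκ0 := chartInt_kappa D x
  have hκ1 := D.κ_lt_one
  obtain ⟨r, hr, hrr0, hrs, hrw⟩ : ∃ r : ℝ, 0 < r ∧ r ≤ r0 ∧ r < s ∧ s + r < D.wid x := by
    refine ⟨min r0 (min (s / 2) ((D.wid x - s) / 2)), ?_, min_le_left _ _, ?_, ?_⟩
    · exact lt_min hr0 (lt_min (by linarith) (by linarith))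
    · have : min r0 (min (s / 2) ((D.wid x - s) / 2)) ≤ s / 2 :=
        (min_le_right _ _).trans (min_le_left _ _)
      linarith
    · have : min r0 (min (s / 2) ((D.wid x - s) / 2)) ≤ (D.wid x - s) / 2 :=
        (min_le_right _ _).trans (min_le_right _ _)
      linarith
  -- the parametrisation
  let psi : ℝ → ℝ → D.X := fun v u => D.proj (D.pt (u +ᵥ x) (s + v))
  let ze : ℝ → ℝ → ℂ := fun v u => ⟨v + D.bend x u, u⟩
  let K := Icc (-r) r × Icc (-r) r
  let Ψ : K → D.X := fun a => psi a.1 a.2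
  let ζ : K → ℂ := fun a => ze a.1 a.2
  set ρ := (1 - D.κ) * r with hρ
  have hρr : ρ ≤ r := by
    rw [hρ]
    nlinarith
  have hρ0 : 0 < ρ := mul_pos (by linarith) hr
  have hze : Continuous fun p : ℝ × ℝ => ze p.1 p.2 := by
    have h1 : (fun p : ℝ × ℝ => ze p.1 p.2) =
        fun p : ℝ × ℝ => ((p.1 + D.bend x p.2 : ℝ) : ℂ) + (p.2 : ℂ) * Complex.I := by
      funext p
      apply Complex.ext <;> simp [ze]
    rw [h1]
    have h2 : Continuous fun p : ℝ × ℝ => p.1 + D.bend x p.2 :=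
      continuous_fst.add ((chartInt_bend_cont D x).comp continuous_snd)
    exact (Complex.continuous_ofReal.comp h2).add
      ((Complex.continuous_ofReal.comp continuous_snd).mul continuous_const)
  have hpsi : Continuous fun p : ℝ × ℝ => psi p.1 p.2 := by
    have h1 : Continuous fun p : ℝ × ℝ => p.2 +ᵥ x :=
      BaseSpace.cont.comp (continuous_snd.prodMk continuous_const)
    have h2 : Continuous fun p : ℝ × ℝ => (s + p.1) / D.wid (p.2 +ᵥ x) :=
      (continuous_const.add continuous_fst).div (D.wid_cont.comp h1)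
        (fun p => (D.wid_pos _).ne')
    exact continuous_quotient_mk'.comp (h1.prodMk (continuous_projIcc.comp h2))
  have hval : Continuous fun a : K => ((a.1 : ℝ), (a.2 : ℝ)) :=
    (continuous_subtype_val.comp continuous_fst).prodMk
      (continuous_subtype_val.comp continuous_snd)
  have hΨ : Continuous Ψ := hpsi.comp hval
  have hζ : Continuous ζ := hze.comp hval
  -- positions
  have hpos : ∀ v : ℝ, |v| ≤ r → 0 < s + v ∧ ∀ u : ℝ, s + v < D.wid (u +ᵥ x) := by
    intro v hv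
    obtain ⟨h1, h2⟩ := abs_le.1 hv
    exact ⟨by linarith, fun u => by rw [D.wid_vadd]; linarith⟩
  have hsame : ∀ v u : ℝ, |v| ≤ r → ∀ x' s', 0 ≤ s' → s' ≤ D.wid x' →
      psi v u = D.proj (D.pt x' s') → x' = u +ᵥ x ∧ s' = s + v := by
    intro v u hv x' s' h1 h2 h3
    obtain ⟨p1, p2⟩ := hpos v hv
    have h4 := chartInt_rel D p1 (p2 u) h3
    have h5 : x' = u +ᵥ x := (congrArg Prod.fst h4).symm
    refine ⟨h5, ?_⟩
    have h6 : (((D.pt (u +ᵥ x) (s + v)).2 : unitInterval) : ℝ) =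
        (((D.pt x' s').2 : unitInterval) : ℝ) := by rw [h4]
    rw [chartInt_pt_snd D _ _ p1.le (p2 u).le, chartInt_pt_snd D _ _ h1 h2, h5,
      div_left_inj' (D.wid_pos _).ne'] at h6
    exact h6.symm
  have hiff : ∀ a b, ζ a = ζ b ↔ Ψ a = Ψ b := by
    rintro ⟨⟨v, hv⟩, ⟨u, hu⟩⟩ ⟨⟨v', hv'⟩, ⟨u', hu'⟩⟩
    constructor
    · intro h
      have h1 : u = u' := congrArg Complex.im h
      have h2 : v + D.bend x u = v' + D.bend x u' := congrArg Complex.re h
      subst h1
      have h3 : v = v' := by linarith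
      subst h3
      rfl
    · intro h
      have h0 : psi v u = D.proj (D.pt (u' +ᵥ x) (s + v')) := h
      obtain ⟨p1, p2⟩ := hpos v' (abs_le.2 hv')
      obtain ⟨h1, h2⟩ := hsame v u (abs_le.2 hv) _ _ p1.le (p2 u').le h0
      have h3 : v = v' := by linarith
      have h4 : u' = u := hinj x ⟨by linarith [hu'.1], by linarith [hu'.2]⟩
        ⟨by linarith [hu.1], by linarith [hu.2]⟩ h1
      subst h3 h4
      rfl
  have hin : ∀ v u : ℝ, ‖ze v u‖ < ρ → |v| < r ∧ |u| < r := by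
    intro v u h
    have h1 : |u| ≤ ‖ze v u‖ := Complex.abs_im_le_norm (ze v u)
    have h2 : |v + D.bend x u| ≤ ‖ze v u‖ := Complex.abs_re_le_norm (ze v u)
    have h3 := D.bend_le x u
    have h4 : |v| ≤ |v + D.bend x u| + |D.bend x u| := by
      have h5 : v = (v + D.bend x u) - D.bend x u := by ring
      conv_lhs => rw [h5]
      exact abs_sub _ _
    have h5 : |u| < r := by linarith
    have h6 : D.κ * |u| ≤ D.κ * r := mul_le_mul_of_nonneg_left h5.le hκ0
    refine ⟨?_, h5⟩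
    have h7 : ρ + D.κ * r = r := by rw [hρ]; ring
    linarith
  have hopen : IsOpen (Ψ '' {a | ‖ζ a‖ < ρ}) := by
    rw [isOpen_iff_mem_nhds]
    rintro _ ⟨⟨⟨v, hv⟩, ⟨u, hu⟩⟩, ha, rfl⟩
    have ha' : ‖ze v u‖ < ρ := ha
    have hO : IsOpen {p : ℝ × ℝ | ‖ze p.1 p.2‖ < ρ} := isOpen_lt hze.norm continuous_const
    obtain ⟨ε, hε, hball⟩ := Metric.isOpen_iff.1 hO (v, u) ha'
    obtain ⟨p1, p2⟩ := hpos v (abs_le.2 hv)
    refine mem_of_superset (hN D (u +ᵥ x) (s + v) ε p1 (p2 u) hε) ?_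
    rintro q ⟨v', u', hv', hu', rfl⟩
    have hmem : ((v + v', u' + u) : ℝ × ℝ) ∈ Metric.ball ((v, u) : ℝ × ℝ) ε := by
      rw [Metric.mem_ball, Prod.dist_eq, max_lt_iff, Real.dist_eq, Real.dist_eq]
      refine ⟨?_, ?_⟩
      · have : v + v' - v = v' := by ring
        show |v + v' - v| < ε
        rw [this]
        exact hv'
      · have : u' + u - u = u' := by ring
        show |u' + u - u| < ε
        rw [this]
        exact hu'
    have h1 : ‖ze (v + v') (u' + u)‖ < ρ := hball hmem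
    obtain ⟨h2, h3⟩ := hin _ _ h1
    refine ⟨(⟨v + v', abs_le.1 h2.le⟩, ⟨u' + u, abs_le.1 h3.le⟩), h1, ?_⟩
    show D.proj (D.pt ((u' + u) +ᵥ x) (s + (v + v'))) =
      D.proj (D.pt (u' +ᵥ (u +ᵥ x)) (s + v + v'))
    rw [add_vadd, add_assoc]
  have hsurj : ∀ w : ℂ, ‖w‖ < ρ → ∃ a, ζ a = w := by
    intro w hw
    have h1 := Complex.abs_im_le_norm w
    have h2 := Complex.abs_re_le_norm w
    have h3 := D.bend_le x w.im
    have h4 : |w.re - D.bend x w.im| ≤ |w.re| + |D.bend x w.im| := abs_sub _ _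
    have h5 : |w.im| ≤ r := by linarith
    have h6 : |w.re - D.bend x w.im| ≤ r := by
      have h7 : D.κ * |w.im| ≤ D.κ * ρ := mul_le_mul_of_nonneg_left (by linarith) hκ0
      have h8 : ρ + D.κ * ρ ≤ r := by
        rw [hρ]
        nlinarith [mul_nonneg hκ0 hκ0]
      linarith
    refine ⟨(⟨w.re - D.bend x w.im, abs_le.1 h6⟩, ⟨w.im, abs_le.1 h5⟩), ?_⟩
    apply Complex.ext
    · show w.re - D.bend x w.im + D.bend x w.im = w.re
      ring
    · rfl
  haveI : CompactSpace K := inferInstance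
  haveI : Nonempty K := ⟨(⟨0, by constructor <;> linarith⟩, ⟨0, by constructor <;> linarith⟩)⟩
  obtain ⟨e, he1, -, he3⟩ := hCP D.X K Ψ ζ ρ hΨ hζ hiff hopen hsurj
  have he3' : ∀ v u : ℝ, |v| ≤ r → |u| ≤ r → e (psi v u) = ze v u := fun v u hv hu =>
    he3 (⟨v, abs_le.1 hv⟩, ⟨u, abs_le.1 hu⟩)
  have h00 : psi 0 0 = D.proj (D.pt x s) := by
    show D.proj (D.pt ((0 : ℝ) +ᵥ x) (s + 0)) = D.proj (D.pt x s)
    rw [zero_vadd, add_zero]
  have hz0 : ze 0 0 = 0 := by
    apply Complex.ext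
    · show (0 : ℝ) + D.bend x 0 = 0
      rw [chartInt_bend_zero, add_zero]
    · rfl
  have habs0 : |(0 : ℝ)| ≤ r := by rw [abs_zero]; exact hr.le
  refine ⟨e, ?_, ?_, ?_, ?_⟩
  · rw [he1]
    refine ⟨(⟨0, abs_le.1 habs0⟩, ⟨0, abs_le.1 habs0⟩), ?_, h00⟩
    show ‖ze 0 0‖ < ρ
    rw [hz0, norm_zero]
    exact hρ0
  · rw [← h00, he3' 0 0 habs0 habs0, hz0]
  · intro x' s' h1 h2 h3
    rw [he1] at h3
    obtain ⟨⟨⟨v, hv⟩, ⟨u, hu⟩⟩, ha, hpa⟩ := h3
    have ha' : ‖ze v u‖ < ρ := ha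
    have hpa' : psi v u = D.proj (D.pt x' s') := hpa
    obtain ⟨h4, h5⟩ := hsame v u (abs_le.2 hv) x' s' h1.le h2.le hpa'
    subst h4 h5
    obtain ⟨h6, h7⟩ := hin v u ha'
    refine ⟨min (r - |v|) (r - |u|), lt_min (by linarith) (by linarith), ?_⟩
    intro v' u' hv' hu'
    have h8 : |v + v'| ≤ r := by
      have := abs_add_le v v'
      have h9 := lt_of_lt_of_le hv' (min_le_left _ _)
      linarith
    have h9 : |u' + u| ≤ r := by
      have := abs_add_le u' u
      have h9 := lt_of_lt_of_le hu' (min_le_right _ _)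
      linarith
    have h10 : D.proj (D.pt (u' +ᵥ (u +ᵥ x)) (s + v + v')) = psi (v + v') (u' + u) := by
      show _ = D.proj (D.pt ((u' + u) +ᵥ x) (s + (v + v')))
      rw [add_vadd, add_assoc]
    rw [h10, he3' _ _ h8 h9, ← hpa', he3' _ _ h6.le h7.le]
    have h11 := D.bend_add x u u'
    apply Complex.ext
    · show v + v' + D.bend x (u' + u) = v + D.bend x u + (v' + D.bend (u +ᵥ x) u')
      rw [add_comm u' u, h11]
      ring
    · show u' + u = u + u'
      ring
  · intro y h3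
    exfalso
    rw [he1] at h3
    obtain ⟨⟨⟨v, hv⟩, ⟨u, hu⟩⟩, ha, hpa⟩ := h3
    have hpa' : psi v u = D.proj (D.pt y 0) := hpa
    obtain ⟨-, h5⟩ := hsame v u (abs_le.2 hv) y 0 le_rfl (D.wid_pos y).le hpa'
    have h6 := (hpos v (abs_le.2 hv)).1
    linarith

end Horo
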