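import Pool.Agent.Horo.DStmts

/-! Chart from a compact parameter space. -/

open Topology Filter Set Complex

namespace Horo

theorem chartParam : Stmt_chartParam := by
  intro X _ _ K _ _ _ Ψ ζ ρ hΨ hζ hiff hopen hsurj
  classical
  haveI : Nonempty X := ⟨Ψ (Classical.arbitrary K)⟩
  let z : X → ℂ := fun x => if h : ∃ a, Ψ a = x then ζ h.choose else 0
  have hz : ∀ a, z (Ψ a) = ζ a := by
    intro a
    have h : ∃ b, Ψ b = Ψ a := ⟨a, rfl⟩
    show (if h : ∃ b, Ψ b = Ψ a then ζ h.choose else 0) = ζ a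
    rw [dif_pos h]
    exact (hiff _ _).mpr h.choose_spec
  have hK : IsCompact (range Ψ) := isCompact_range hΨ
  have hset : {x | x ∈ range Ψ ∧ ‖z x‖ < ρ} = Ψ '' {a | ‖ζ a‖ < ρ} := by
    ext x
    constructor
    · rintro ⟨⟨a, rfl⟩, h⟩
      have h' : ‖z (Ψ a)‖ < ρ := h
      rw [hz] at h'
      exact ⟨a, h', rfl⟩
    · rintro ⟨a, h, rfl⟩
      refine ⟨⟨a, rfl⟩, ?_⟩
      show ‖z (Ψ a)‖ < ρ
      rw [hz]
      exact h
  have hc : ContinuousOn z (range Ψ) := by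
    rw [continuousOn_iff_isClosed]
    intro F hF
    refine ⟨Ψ '' (ζ ⁻¹' F), ?_, ?_⟩
    · exact ((hF.preimage hζ).isCompact.image hΨ).isClosed
    · ext x
      constructor
      · rintro ⟨h1, ⟨a, rfl⟩⟩
        refine ⟨⟨a, ?_, rfl⟩, ⟨a, rfl⟩⟩
        have h2 : z (Ψ a) ∈ F := h1
        rw [hz] at h2
        exact h2
      · rintro ⟨⟨a, h1, rfl⟩, h2⟩
        refine ⟨?_, h2⟩
        show z (Ψ a) ∈ F
        rw [hz]
        exact h1
  have hi : InjOn z (range Ψ) := by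
    rintro _ ⟨a, rfl⟩ _ ⟨b, rfl⟩ h
    rw [hz, hz] at h
    exact (hiff a b).mp h
  have hU : IsOpen {x | x ∈ range Ψ ∧ ‖z x‖ < ρ} := by rw [hset]; exact hopen
  have hs : ∀ w : ℂ, ‖w‖ < ρ → ∃ x ∈ range Ψ, z x = w := by
    intro w hw
    obtain ⟨a, ha⟩ := hsurj w hw
    exact ⟨Ψ a, ⟨a, rfl⟩, by rw [hz, ha]⟩
  refine ⟨chartOfCompact (range Ψ) z ρ hK hc hi hU hs, ?_, ?_, ?_⟩
  · rw [chartOfCompact_source, hset]
  · rw [chartOfCompact_target]
  · intro a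
    rw [chartOfCompact_apply, hz]

end Horo
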