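import Pool.Agent.Horo.DStmts

open Topology Filter Set Complex

namespace Horo

theorem chartSeam (C : Type) [TopologicalSpace C] [AddAction ℝ C] (hcp : Stmt_chartParam)
    (hcl : Stmt_closedRel C) (hfs : Stmt_finSupp C) (hgr : Stmt_goodRad C)
    (hco : Stmt_contPsi C) (hin : Stmt_injPsi C) (hsu : Stmt_surjPsi C) (hop : Stmt_openPsi C)
    (hinc : Stmt_incrPsi C) : Stmt_chartSeam C := by
  intro _ _ _ D y
  obtain ⟨r, hr⟩ := hgr D y
  obtain ⟨-, hlen, -⟩ := hfs D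
  have hlen' := hlen y
  haveI : T2Space D.X := t2Space_quotient D.setoid (hcl D)
  obtain ⟨hc1, hc2⟩ := hco D y r hr
  have hinj := hin D y r hr
  obtain ⟨hs1, hs2⟩ := hsu D y r hr
  have a0 : Diagram.KK (D.len y) r :=
    (⟨0, hlen'⟩, true, ⟨0, ⟨le_refl _, hr.pos.le⟩⟩, ⟨0, ⟨by linarith [hr.pos], hr.pos.le⟩⟩)
  haveI : Nonempty (Diagram.KK (D.len y) r) := ⟨a0⟩
  have hκ : 0 < (1 - D.κ) * r := mul_pos (by linarith [D.κ_lt_one]) hr.pos
  have hopen : IsOpen (D.Psi y r '' {a | ‖D.zeta y r a‖ < (1 - D.κ) * r}) := by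
    apply hop D y r hr
    · exact isOpen_lt (continuous_norm.comp hc2) continuous_const
    · intro a ha
      exact hs2 a ha
    · intro a b ha hab
      have := (hinj a b).mpr hab
      show ‖D.zeta y r b‖ < _
      rw [← this]
      exact ha
  obtain ⟨e, he1, he2, he3⟩ := hcp D.X (Diagram.KK (D.len y) r) (D.Psi y r) (D.zeta y r)
    ((1 - D.κ) * r) hc1 hc2 hinj hopen hs1
  obtain ⟨a1, ha1⟩ := hs1 0 (by simpa using hκ)
  have hseam : D.proj (D.pt y 0) = D.Psi y r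
      ((⟨0, hlen'⟩, true, ⟨0, ⟨le_refl _, hr.pos.le⟩⟩, ⟨0, ⟨by linarith [hr.pos], hr.pos.le⟩⟩) :
        Diagram.KK (D.len y) r) := by
    simp [Diagram.Psi, Diagram.ptR]
  have hz0 : D.zeta y r
      ((⟨0, hlen'⟩, true, ⟨0, ⟨le_refl _, hr.pos.le⟩⟩, ⟨0, ⟨by linarith [hr.pos], hr.pos.le⟩⟩) :
        Diagram.KK (D.len y) r) = 0 := by
    have hb : D.bend y 0 = 0 := by
      have := D.bend_add y 0 0
      simpa using this
    have h0 : (⟨0 + D.bend y 0, 0⟩ : ℂ) = 0 := by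
      rw [hb]; simp; rfl
    simp only [Diagram.zeta, Diagram.devR, if_true, pow_zero, Equiv.Perm.coe_one, id_eq]
    rw [h0]
    unfold rt
    rw [Complex.zero_cpow]
    · simp
    · simp [hlen'.ne']
  refine ⟨e, ?_, ?_, ?_, ?_⟩
  · rw [he1, hseam]
    refine ⟨_, ?_, rfl⟩
    show ‖D.zeta y r _‖ < _
    rw [hz0]
    simpa using hκ
  · rw [hseam, he3, hz0]
  · intro x s hs hs' hmem
    rw [he1] at hmem
    obtain ⟨a, ha, hq⟩ := hmem
    have h1 := hinc D y r hr (fun q => e q ^ D.len y) (fun a => by rw [he3]) a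
      (hs2 a ha).1 (hs2 a ha).2
    exact h1.1 x s hs hs' hq.symm
  · intro y' hmem
    rw [he1] at hmem
    obtain ⟨a, ha, hq⟩ := hmem
    have h1 := hinc D y r hr (fun q => e q ^ D.len y) (fun a => by rw [he3]) a
      (hs2 a ha).1 (hs2 a ha).2
    exact h1.2 y' hq.symm

end Horo
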