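import Pool.Agent.Horo.DStmts

/-! Finite disjoint unions of circles are base spaces. -/

open Topology Filter Set Complex

namespace Horo

theorem circles_inj {p : ℝ} (hp : 0 < p) {u u' : ℝ} (h1 : |u - u'| < p)
    (h : (u : AddCircle p) = (u' : AddCircle p)) : u = u' := by
  have h2 : ((u - u' : ℝ) : AddCircle p) = 0 := by
    rw [AddCircle.coe_sub, h, sub_self]
  obtain ⟨n, hn⟩ := (AddCircle.coe_eq_zero_iff p).1 h2
  rw [zsmul_eq_mul] at hn
  rw [← hn, abs_mul, abs_of_pos hp] at h1
  have h3 : |(n : ℝ)| < 1 := by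
    by_contra hcon
    push Not at hcon
    nlinarith
  have h4 : n = 0 := by
    have h5 : |n| < 1 := by exact_mod_cast h3
    exact Int.abs_lt_one_iff.1 h5
  rw [h4] at hn
  simp at hn
  linarith

theorem circles : Stmt_circles := by
  intro ι _ len hlen
  have : ∀ c, Fact (0 < len c) := fun c => ⟨hlen c⟩
  refine ⟨inferInstance, inferInstance, ?_⟩
  constructor
  · rw [continuous_iff_continuousAt]
    rintro ⟨u, c, x⟩
    have hs : IsOpenEmbedding (@Sigma.mk ι (fun c => AddCircle (len c)) c) :=
      IsOpenEmbedding.sigmaMk (σ := fun c => AddCircle (len c)) (i := c)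
    have hemb : IsOpenEmbedding (Prod.map (id : ℝ → ℝ)
        (@Sigma.mk ι (fun c => AddCircle (len c)) c)) :=
      IsOpenEmbedding.id.prodMap hs
    have h2 : Continuous (fun p : ℝ × AddCircle (len c) =>
        (⟨c, (p.1 : AddCircle (len c)) + p.2⟩ : Circles len)) := by
      refine hs.continuous.comp ?_
      exact ((AddCircle.continuous_mk' (len c)).comp continuous_fst).add continuous_snd
    have h3 : ContinuousAt (fun p : ℝ × AddCircle (len c) =>
        (⟨c, (p.1 : AddCircle (len c)) + p.2⟩ : Circles len)) (u, x) := h2.continuousAt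
    exact (hemb.continuousAt_iff (g := fun p : ℝ × Circles len =>
      (circlesAction len).toVAdd.vadd p.1 p.2) (x := (u, x))).1 h3
  · obtain ⟨r0, hr0, hr⟩ : ∃ r0 : ℝ, 0 < r0 ∧ ∀ c, r0 ≤ len c / 4 := by
      rcases isEmpty_or_nonempty ι with h | h
      · exact ⟨1, one_pos, fun c => (h.false c).elim⟩
      · obtain ⟨c0, hc0⟩ := Finite.exists_min len
        exact ⟨len c0 / 4, by linarith [hlen c0], fun c => by linarith [hc0 c]⟩
    refine ⟨r0, hr0, ?_⟩
    rintro ⟨c, x⟩ u hu u' hu' h
    have h1 : (⟨c, (u : AddCircle (len c)) + x⟩ : Circles len) =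
        ⟨c, (u' : AddCircle (len c)) + x⟩ := h
    have h2 : (u : AddCircle (len c)) + x = (u' : AddCircle (len c)) + x := by
      simpa using h1
    have h3 := add_right_cancel h2
    refine circles_inj (hlen c) ?_ h3
    have h4 := hr c
    have h5 := hlen c
    rw [abs_lt]
    constructor <;> linarith [hu.1, hu.2, hu'.1, hu'.2]
  · rintro ⟨c, x⟩ r _
    show IsOpen ((fun u : ℝ => (⟨c, (u : AddCircle (len c)) + x⟩ : Circles len)) '' Ioo (-r) r)
    have h1 : ((fun u : ℝ => (⟨c, (u : AddCircle (len c)) + x⟩ : Circles len)) '' Ioo (-r) r) =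
        (@Sigma.mk ι (fun c => AddCircle (len c)) c) '' ((fun y : AddCircle (len c) => y + x) ''
          ((fun u : ℝ => (u : AddCircle (len c))) '' Ioo (-r) r)) := by
      rw [image_image, image_image]
    rw [h1]
    have hs : IsOpenEmbedding (@Sigma.mk ι (fun c => AddCircle (len c)) c) :=
      IsOpenEmbedding.sigmaMk (σ := fun c => AddCircle (len c)) (i := c)
    apply hs.isOpenMap
    apply (Homeomorph.addRight x).isOpenMap
    exact QuotientAddGroup.isOpenMap_coe _ isOpen_Ioo

end Horo
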