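import Pool.Agent.Horo.DStmts

set_option autoImplicit false

open Topology Filter Set Complex

namespace Horo

namespace Diagram

variable {C : Type} [TopologicalSpace C] [AddAction ℝ C] (D : Diagram C)

lemma classes_pt_snd (x : C) (s : ℝ) (h0 : 0 ≤ s) (h1 : s ≤ D.wid x) :
    ((D.pt x s).2 : ℝ) = s / D.wid x := by
  unfold pt
  have hw := D.wid_pos x
  simp only [Set.coe_projIcc]
  rw [min_eq_right ((div_le_one hw).2 h1), max_eq_right (div_nonneg h0 hw.le)]

lemma classes_pt_right {x : C} (u v : ℝ) (h0 : 0 ≤ v) (h1 : v ≤ D.wid x) :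
    ((D.pt (u +ᵥ x) v).2 : ℝ) = v / D.wid x := by
  rw [D.classes_pt_snd _ _ h0 (by rw [D.wid_vadd]; exact h1), D.wid_vadd]

lemma classes_pt_left {x : C} (u v : ℝ) (h0 : 0 ≤ v) (h1 : v ≤ D.wid x) :
    ((D.pt (u +ᵥ x) (D.wid x - v)).2 : ℝ) = 1 - v / D.wid x := by
  have hw := D.wid_pos x
  rw [D.classes_pt_snd _ _ (by linarith) (by rw [D.wid_vadd]; linarith), D.wid_vadd]
  field_simp

lemma classes_proj_eq (p q : Y C) : D.proj p = D.proj q ↔ D.Rel p q := by
  unfold proj
  exact ⟨fun h => Quotient.exact h, fun h => Quotient.sound h⟩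

/-- Points near a cycle, but not on it, are fixed by `τ`. -/
lemma classes_fixed {y : C} {r : ℝ} (hr : D.GoodRad y r) {y' : C} (hy : D.τ.SameCycle y y')
    {u : ℝ} (hu : u ≠ 0) (hur : |u| ≤ r) : Function.IsFixedPt D.τ (u +ᵥ y') := by
  show D.τ (u +ᵥ y') = u +ᵥ y'
  rcases lt_or_gt_of_ne hu with h | h
  · obtain ⟨y₀, hy₀⟩ : ∃ y₀, D.τ y₀ = y' := D.τ.surjective y'
    have hc : D.τ.SameCycle y y₀ := by
      rw [← hy₀, Equiv.Perm.sameCycle_apply_right] at hy; exact hy
    have h1 := hr.up_neg y₀ hc (-u) (by linarith) (by rw [abs_of_neg h] at hur; exact hur)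
    have h2 := hr.dn_neg y₀ hc (-u) (by linarith) (by rw [abs_of_neg h] at hur; exact hur)
    rw [neg_neg, hy₀] at h1 h2
    rw [D.τ_apply, ← h1, Equiv.symm_apply_apply, h2, h1]
  · have h1 := hr.up_pos y' hy u h (by rw [abs_of_pos h] at hur; exact hur)
    have h2 := hr.dn_pos y' hy u h (by rw [abs_of_pos h] at hur; exact hur)
    rw [D.τ_apply]
    rw [← h1, Equiv.symm_apply_apply, h2, h1]

end Diagram

open Diagram

/-- When two parameters give the same point of the surface. -/
theorem classes (C : Type) [TopologicalSpace C] [AddAction ℝ C] : Stmt_classes C := by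
  intro _ _ _ D y r hr y' y'' hy' hy'' v v' u u' hv hvr hv' hvr' hu hu'
  -- widths
  have w1 := hr.wid_right y' hy'
  have w2 := hr.wid_right y'' hy''
  have w3 := hr.wid_left y' hy'
  have w4 := hr.wid_left y'' hy''
  have hrp := hr.pos
  have W1 := D.wid_pos y'
  have W2 := D.wid_pos y''
  have W3 := D.wid_pos (D.up.symm y')
  have W4 := D.wid_pos (D.up.symm y'')
  -- the second coordinates
  have t1 := D.classes_pt_right (x := y') u v hv (by linarith)
  have t2 := D.classes_pt_right (x := y'') u' v' hv' (by linarith)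
  have t3 := D.classes_pt_left (x := D.up.symm y') u v hv (by linarith)
  have t4 := D.classes_pt_left (x := D.up.symm y'') u' v' hv' (by linarith)
  have q1 : v / D.wid y' < 1 / 2 := by rw [div_lt_div_iff₀ W1 two_pos]; linarith
  have q2 : v' / D.wid y'' < 1 / 2 := by rw [div_lt_div_iff₀ W2 two_pos]; linarith
  have q3 : v / D.wid (D.up.symm y') < 1 / 2 := by rw [div_lt_div_iff₀ W3 two_pos]; linarith
  have q4 : v' / D.wid (D.up.symm y'') < 1 / 2 := by rw [div_lt_div_iff₀ W4 two_pos]; linarith
  have p1 : 0 ≤ v / D.wid y' := div_nonneg hv W1.le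
  have p2 : 0 ≤ v' / D.wid y'' := div_nonneg hv' W2.le
  have p3 : 0 ≤ v / D.wid (D.up.symm y') := div_nonneg hv W3.le
  have p4 : 0 ≤ v' / D.wid (D.up.symm y'') := div_nonneg hv' W4.le
  -- seam conditions
  have s1 : IsSeam (D.pt (u +ᵥ y') v) ↔ v = 0 := by
    unfold IsSeam
    rw [t1]
    constructor
    · rintro (h | h)
      · rcases div_eq_zero_iff.1 h with h | h
        · exact h
        · linarith
      · linarith
    · intro h; left; rw [h, zero_div]
  have s2 : IsSeam (D.pt (u' +ᵥ y'') v') ↔ v' = 0 := by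
    unfold IsSeam
    rw [t2]
    constructor
    · rintro (h | h)
      · rcases div_eq_zero_iff.1 h with h | h
        · exact h
        · linarith
      · linarith
    · intro h; left; rw [h, zero_div]
  have s3 : IsSeam (D.pt (u +ᵥ D.up.symm y') (D.wid (D.up.symm y') - v)) ↔ v = 0 := by
    unfold IsSeam
    rw [t3]
    constructor
    · rintro (h | h)
      · linarith
      · have : v / D.wid (D.up.symm y') = 0 := by linarith
        rcases div_eq_zero_iff.1 this with h | h
        · exact h
        · linarith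
    · intro h; right; rw [h, zero_div, sub_zero]
  have s4 : IsSeam (D.pt (u' +ᵥ D.up.symm y'') (D.wid (D.up.symm y'') - v')) ↔ v' = 0 := by
    unfold IsSeam
    rw [t4]
    constructor
    · rintro (h | h)
      · linarith
      · have : v' / D.wid (D.up.symm y'') = 0 := by linarith
        rcases div_eq_zero_iff.1 this with h | h
        · exact h
        · linarith
    · intro h; right; rw [h, zero_div, sub_zero]
  -- bases
  have b1 : v = 0 → D.base (D.pt (u +ᵥ y') v) = u +ᵥ y' := by
    intro h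
    unfold base
    rw [if_pos (by rw [t1, h, zero_div])]
    rfl
  have b2 : v' = 0 → D.base (D.pt (u' +ᵥ y'') v') = u' +ᵥ y'' := by
    intro h
    unfold base
    rw [if_pos (by rw [t2, h, zero_div])]
    rfl
  have b3 : v = 0 → D.base (D.pt (u +ᵥ D.up.symm y') (D.wid (D.up.symm y') - v))
      = D.up (u +ᵥ D.up.symm y') := by
    intro h
    unfold base
    rw [if_neg (by rw [t3, h, zero_div]; norm_num)]
    rfl
  have b4 : v' = 0 → D.base (D.pt (u' +ᵥ D.up.symm y'') (D.wid (D.up.symm y'') - v'))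
      = D.up (u' +ᵥ D.up.symm y'') := by
    intro h
    unfold base
    rw [if_neg (by rw [t4, h, zero_div]; norm_num)]
    rfl
  -- value of the left base
  have B : ∀ z, D.τ.SameCycle y z → ∀ w : ℝ, |w| ≤ r → D.up (w +ᵥ D.up.symm z) =
      if 0 < w then w +ᵥ z else if w = 0 then z else w +ᵥ D.τ z := by
    intro z hz w hw
    split_ifs with h1 h2
    · exact hr.up_pos z hz w h1 (by rw [abs_of_pos h1] at hw; exact hw)
    · rw [h2, zero_vadd, Equiv.apply_symm_apply]
    · have h3 : w < 0 := lt_of_le_of_ne (not_lt.1 h1) h2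
      have := hr.up_neg z hz (-w) (by linarith) (by rw [abs_of_neg h3] at hw; exact hw)
      rwa [neg_neg] at this
  -- fixed points
  have F : ∀ z, D.τ.SameCycle y z → ∀ w : ℝ, w ≠ 0 → |w| ≤ r →
      Function.IsFixedPt D.τ (w +ᵥ z) := fun z hz w hw hwr => D.classes_fixed hr hz hw hwr
  have FB : ∀ z, D.τ.SameCycle y z → ∀ w : ℝ, w ≠ 0 → |w| ≤ r →
      Function.IsFixedPt D.τ (D.up (w +ᵥ D.up.symm z)) := by
    intro z hz w hw hwr
    rw [B z hz w hwr]
    split_ifs with h1
    · exact F z hz w hw hwr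
    · exact F (D.τ z) (by rw [Equiv.Perm.sameCycle_apply_right]; exact hz) w hw hwr
  have hτ'' : D.τ.SameCycle y (D.τ y'') := by rw [Equiv.Perm.sameCycle_apply_right]; exact hy''
  have h12 : D.τ.SameCycle y' y'' := hy'.symm.trans hy''
  refine ⟨?_, ?_, ?_⟩
  · unfold ptR
    rw [D.classes_proj_eq]
    constructor
    · rintro (h | ⟨h1, h2, h3⟩)
      · left
        have e1 := congrArg Prod.fst h
        have e2 : v / D.wid y' = v' / D.wid y'' := by rw [← t1, ← t2, h]
        obtain ⟨hu1, hy1⟩ := hr.inj_right y' y'' hy' hy'' u u' hu hu' e1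
        subst hy1
        refine ⟨?_, hu1, rfl⟩
        field_simp at e2
        exact e2
      · have hv0 := s1.1 h1
        have hv0' := s2.1 h2
        rw [b1 hv0, b2 hv0'] at h3
        by_cases hu0 : u = 0
        · by_cases hu0' : u' = 0
          · right; exact ⟨hv0, hv0', hu0, hu0'⟩
          · have := h3.eq_of_right (F y'' hy'' u' hu0' hu')
            obtain ⟨hu1, hy1⟩ := hr.inj_right y' y'' hy' hy'' u u' hu hu' this
            exact absurd (hu1.symm.trans hu0) hu0'
        · have := h3.eq_of_left (F y' hy' u hu0 hu)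
          obtain ⟨hu1, hy1⟩ := hr.inj_right y' y'' hy' hy'' u u' hu hu' this
          left; exact ⟨by rw [hv0, hv0'], hu1, hy1⟩
    · rintro (⟨h1, h2, h3⟩ | ⟨h1, h2, h3, h4⟩)
      · left; rw [h1, h2, h3]
      · right
        refine ⟨s1.2 h1, s2.2 h2, ?_⟩
        rw [b1 h1, b2 h2, h3, h4, zero_vadd, zero_vadd]
        exact h12
  · unfold ptL
    rw [D.classes_proj_eq]
    constructor
    · rintro (h | ⟨h1, h2, h3⟩)
      · left
        have e1 := congrArg Prod.fst h
        have e2 : 1 - v / D.wid (D.up.symm y') = 1 - v' / D.wid (D.up.symm y'') := by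
          rw [← t3, ← t4, h]
        obtain ⟨hu1, hy1⟩ := hr.inj_left y' y'' hy' hy'' u u' hu hu' e1
        subst hy1
        refine ⟨?_, hu1, rfl⟩
        field_simp at e2
        linarith
      · have hv0 := s3.1 h1
        have hv0' := s4.1 h2
        rw [b3 hv0, b4 hv0'] at h3
        by_cases hu0 : u = 0
        · by_cases hu0' : u' = 0
          · right; exact ⟨hv0, hv0', hu0, hu0'⟩
          · have := D.up.injective (h3.eq_of_right (FB y'' hy'' u' hu0' hu'))
            obtain ⟨hu1, hy1⟩ := hr.inj_left y' y'' hy' hy'' u u' hu hu' this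
            exact absurd (hu1.symm.trans hu0) hu0'
        · have := D.up.injective (h3.eq_of_left (FB y' hy' u hu0 hu))
          obtain ⟨hu1, hy1⟩ := hr.inj_left y' y'' hy' hy'' u u' hu hu' this
          left; exact ⟨by rw [hv0, hv0'], hu1, hy1⟩
    · rintro (⟨h1, h2, h3⟩ | ⟨h1, h2, h3, h4⟩)
      · left; rw [h1, h2, h3]
      · right
        refine ⟨s3.2 h1, s4.2 h2, ?_⟩
        rw [b3 h1, b4 h2, h3, h4, zero_vadd, zero_vadd, Equiv.apply_symm_apply,
          Equiv.apply_symm_apply]
        exact h12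
  · unfold ptL ptR
    rw [D.classes_proj_eq]
    constructor
    · rintro (h | ⟨h1, h2, h3⟩)
      · exfalso
        have e2 : v / D.wid y' = 1 - v' / D.wid (D.up.symm y'') := by rw [← t1, ← t4, h]
        linarith
      · have hv0 := s1.1 h1
        have hv0' := s4.1 h2
        rw [b1 hv0, b4 hv0'] at h3
        refine ⟨hv0, hv0', ?_⟩
        by_cases hu0 : u = 0
        · by_cases hu0' : u' = 0
          · exact ⟨by rw [hu0, hu0'], Or.inl hu0⟩
          · exfalso
            have e := h3.eq_of_right (FB y'' hy'' u' hu0' hu')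
            rw [B y'' hy'' u' hu'] at e
            split_ifs at e with g1
            · exact hu0' ((hr.inj_right _ _ hy' hy'' u u' hu hu' e).1.symm.trans hu0)
            · exact hu0' ((hr.inj_right _ _ hy' hτ'' u u' hu hu' e).1.symm.trans hu0)
        · have e := h3.eq_of_left (F y' hy' u hu0 hu)
          rw [B y'' hy'' u' hu'] at e
          split_ifs at e with g1 g2
          · obtain ⟨a, b⟩ := hr.inj_right _ _ hy' hy'' u u' hu hu' e
            exact ⟨a, Or.inr (Or.inl ⟨by rw [a]; exact g1, b⟩)⟩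
          · exfalso
            rw [← zero_vadd ℝ y''] at e
            exact hu0 (hr.inj_right _ _ hy' hy'' u 0 hu (by rw [abs_zero]; exact hrp.le) e).1
          · obtain ⟨a, b⟩ := hr.inj_right _ _ hy' hτ'' u u' hu hu' e
            exact ⟨a, Or.inr (Or.inr ⟨by rw [a]; exact lt_of_le_of_ne (not_lt.1 g1) g2, b⟩)⟩
    · rintro ⟨h1, h2, h3, h4⟩
      right
      refine ⟨s1.2 h1, s4.2 h2, ?_⟩
      rw [b1 h1, b4 h2, ← h3]
      rcases h4 with h4 | ⟨h4, h5⟩ | ⟨h4, h5⟩
      · rw [h4, zero_vadd, zero_vadd, Equiv.apply_symm_apply]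
        exact h12
      · rw [h5, B y'' hy'' u hu, if_pos h4]
      · rw [h5, B y'' hy'' u hu, if_neg (by linarith), if_neg (by linarith)]

end Horo
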