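import Pool.Agent.Horo.DStmts

/-! The gluing relation is closed. -/

open Topology Filter Set

namespace Horo

section

variable {C : Type} [TopologicalSpace C] [AddAction ℝ C]

theorem closedRel_graph [CompactSpace C] [T2Space C] [BaseSpace C] (D : Diagram C) :
    IsClosed {p : C × C | p.2 = D.up p.1 ∨ p.2 = D.dn p.1} := by
  rw [← isOpen_compl_iff, isOpen_iff_mem_nhds]
  rintro ⟨x, y⟩ hxy
  have h1 : y ≠ D.up x := fun h => hxy (Or.inl h)
  have h2 : y ≠ D.dn x := fun h => hxy (Or.inr h)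
  obtain ⟨W1, V1, hW1, hV1, hy1, hx1, hd1⟩ := t2_separation h1
  obtain ⟨W3, V3, hW3, hV3, hy3, hx3, hd3⟩ := t2_separation h2
  obtain ⟨r, hr, hnear⟩ := D.near x
  have hc : ∀ z : C, Continuous fun u : ℝ => u +ᵥ z := fun z =>
    BaseSpace.cont.comp (continuous_id.prodMk continuous_const)
  have hn1 : ∀ᶠ u : ℝ in 𝓝 0, u +ᵥ D.up x ∈ V1 := by
    refine (hc (D.up x)).continuousAt.eventually_mem ?_
    rw [zero_vadd]
    exact hV1.mem_nhds hx1
  have hn3 : ∀ᶠ u : ℝ in 𝓝 0, u +ᵥ D.dn x ∈ V3 := by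
    refine (hc (D.dn x)).continuousAt.eventually_mem ?_
    rw [zero_vadd]
    exact hV3.mem_nhds hx3
  obtain ⟨δ, hδ, hball⟩ := Metric.eventually_nhds_iff.1 (hn1.and hn3)
  set ε := min r δ with hε
  have hε0 : 0 < ε := lt_min hr hδ
  have hO := BaseSpace.isOpen_ball x ε hε0
  have hxO : x ∈ (fun u : ℝ => u +ᵥ x) '' Ioo (-ε) ε :=
    ⟨0, ⟨by linarith, hε0⟩, zero_vadd ℝ x⟩
  have key : ∀ x' ∈ (fun u : ℝ => u +ᵥ x) '' Ioo (-ε) ε,
      D.up x' ∈ V1 ∪ V3 ∧ D.dn x' ∈ V1 ∪ V3 := by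
    rintro _ ⟨u, ⟨hu1, hu2⟩, rfl⟩
    show D.up (u +ᵥ x) ∈ V1 ∪ V3 ∧ D.dn (u +ᵥ x) ∈ V1 ∪ V3
    have hur : |u| < r := (abs_lt.2 ⟨hu1, hu2⟩).trans_le (min_le_left _ _)
    have huδ : dist u 0 < δ := by
      rw [Real.dist_0_eq_abs]
      exact (abs_lt.2 ⟨hu1, hu2⟩).trans_le (min_le_right _ _)
    obtain ⟨m1, m3⟩ := hball huδ
    rcases lt_trichotomy u 0 with h | h | h
    · obtain ⟨-, -, e1, e2⟩ := hnear (-u) (by linarith) (by rw [abs_of_neg h] at hur; exact hur)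
      rw [neg_neg] at e1 e2
      rw [e1, e2]
      exact ⟨Or.inr m3, Or.inr m3⟩
    · subst h
      rw [zero_vadd]
      exact ⟨Or.inl hx1, Or.inr hx3⟩
    · obtain ⟨e1, e2, -, -⟩ := hnear u h (by rw [abs_of_pos h] at hur; exact hur)
      rw [e1, e2]
      exact ⟨Or.inl m1, Or.inl m1⟩
  have hnb : ((fun u : ℝ => u +ᵥ x) '' Ioo (-ε) ε) ×ˢ (W1 ∩ W3) ∈ 𝓝 (x, y) :=
    prod_mem_nhds (hO.mem_nhds hxO) ((hW1.inter hW3).mem_nhds ⟨hy1, hy3⟩)
  refine mem_of_superset hnb ?_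
  rintro ⟨x', y'⟩ ⟨hx', hy1', hy3'⟩ hcon
  obtain ⟨k1, k2⟩ := key x' hx'
  have hnot : y' ∉ V1 ∪ V3 := by
    rintro (h | h)
    · exact disjoint_left.1 hd1 hy1' h
    · exact disjoint_left.1 hd3 hy3' h
  rcases hcon with h | h
  · have h' : y' = D.up x' := h
    rw [← h'] at k1
    exact hnot k1
  · have h' : y' = D.dn x' := h
    rw [← h'] at k2
    exact hnot k2

theorem closedRel_moved {τ : Equiv.Perm C} {x y : C} (h : τ.SameCycle x y) (hne : x ≠ y) :
    τ x ≠ x ∧ τ y ≠ y := by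
  have key : ∀ a b : C, τ.SameCycle a b → a ≠ b → τ a ≠ a := by
    intro a b hab hne heq
    obtain ⟨n, hn⟩ := hab
    exact hne ((Equiv.Perm.zpow_apply_eq_self_of_apply_eq_self heq n).symm.trans hn)
  exact ⟨key x y h hne, key y x h.symm hne.symm⟩

end

theorem closedRel (C : Type) [TopologicalSpace C] [AddAction ℝ C] (h : Stmt_finSupp C) :
    Stmt_closedRel C := by
  intro _ _ _ D
  obtain ⟨hfin, -, -⟩ := h D
  set S : Set C := {y | D.τ y ≠ y} with hS
  -- the relations on the base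
  have G0 : IsClosed {p : C × C | D.τ.SameCycle p.1 p.2} := by
    have h1 : {p : C × C | D.τ.SameCycle p.1 p.2} =
        {p : C × C | p.1 = p.2} ∪ ((S ×ˢ S) ∩ {p : C × C | D.τ.SameCycle p.1 p.2}) := by
      ext ⟨x, y⟩
      constructor
      · intro hp
        by_cases hxy : x = y
        · exact Or.inl hxy
        · exact Or.inr ⟨closedRel_moved hp hxy, hp⟩
      · rintro (hp | hp)
        · have hp' : x = y := hp
          subst hp'
          exact Equiv.Perm.SameCycle.refl _ _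
        · exact hp.2
    rw [h1]
    exact (isClosed_eq continuous_fst continuous_snd).union
      (((hfin.prod hfin).subset inter_subset_left).isClosed)
  have hS' : (D.up ⁻¹' S).Finite := hfin.preimage D.up.injective.injOn
  have G1 : IsClosed {p : C × C | D.τ.SameCycle (D.up p.1) p.2} := by
    have h1 : {p : C × C | D.τ.SameCycle (D.up p.1) p.2} =
        {p : C × C | p.2 = D.up p.1 ∨ p.2 = D.dn p.1} ∪
          (((D.up ⁻¹' S) ×ˢ S) ∩ {p : C × C | D.τ.SameCycle (D.up p.1) p.2}) := by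
      ext ⟨x, y⟩
      constructor
      · intro hp
        by_cases hxy : D.up x = y
        · exact Or.inl (Or.inl hxy.symm)
        · exact Or.inr ⟨closedRel_moved hp hxy, hp⟩
      · rintro ((hp | hp) | hp)
        · have hp' : y = D.up x := hp
          subst hp'
          exact Equiv.Perm.SameCycle.refl _ _
        · have hp' : y = D.dn x := hp
          subst hp'
          refine ⟨1, ?_⟩
          rw [zpow_one, Diagram.τ_apply, Equiv.symm_apply_apply]
        · exact hp.2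
    rw [h1]
    exact (closedRel_graph D).union (((hS'.prod hfin).subset inter_subset_left).isClosed)
  have G1' : IsClosed {p : C × C | D.τ.SameCycle p.1 (D.up p.2)} := by
    have h1 : {p : C × C | D.τ.SameCycle p.1 (D.up p.2)} =
        Prod.swap ⁻¹' {p : C × C | D.τ.SameCycle (D.up p.1) p.2} := by
      ext ⟨x, y⟩
      exact ⟨fun hp => hp.symm, fun hp => hp.symm⟩
    rw [h1]
    exact G1.preimage continuous_swap
  have G2 : IsClosed {p : C × C | D.τ.SameCycle (D.up p.1) (D.up p.2)} := by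
    have h1 : {p : C × C | D.τ.SameCycle (D.up p.1) (D.up p.2)} =
        {p : C × C | p.1 = p.2} ∪ (((D.up ⁻¹' S) ×ˢ (D.up ⁻¹' S)) ∩
          {p : C × C | D.τ.SameCycle (D.up p.1) (D.up p.2)}) := by
      ext ⟨x, y⟩
      constructor
      · intro hp
        by_cases hxy : x = y
        · exact Or.inl hxy
        · exact Or.inr ⟨closedRel_moved hp (fun h => hxy (D.up.injective h)), hp⟩
      · rintro (hp | hp)
        · have hp' : x = y := hp
          subst hp'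
          exact Equiv.Perm.SameCycle.refl _ _
        · exact hp.2
    rw [h1]
    exact (isClosed_eq continuous_fst continuous_snd).union
      (((hS'.prod hS').subset inter_subset_left).isClosed)
  -- the four pieces
  let Q := Diagram.Y C × Diagram.Y C
  have hc1 : Continuous fun p : Q => (p.1.2 : ℝ) :=
    continuous_subtype_val.comp (continuous_snd.comp continuous_fst)
  have hc2 : Continuous fun p : Q => (p.2.2 : ℝ) :=
    continuous_subtype_val.comp (continuous_snd.comp continuous_snd)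
  have hb : Continuous fun p : Q => ((p.1.1, p.2.1) : C × C) :=
    (continuous_fst.comp continuous_fst).prodMk (continuous_fst.comp continuous_snd)
  have hset : {p : Q | D.setoid p.1 p.2} = {p : Q | p.1 = p.2} ∪
      ((({p : Q | (p.1.2 : ℝ) = 0} ∩ {p : Q | (p.2.2 : ℝ) = 0}) ∩
          (fun p : Q => ((p.1.1, p.2.1) : C × C)) ⁻¹' {p | D.τ.SameCycle p.1 p.2}) ∪
      ((({p : Q | (p.1.2 : ℝ) = 1} ∩ {p : Q | (p.2.2 : ℝ) = 0}) ∩
          (fun p : Q => ((p.1.1, p.2.1) : C × C)) ⁻¹' {p | D.τ.SameCycle (D.up p.1) p.2}) ∪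
      ((({p : Q | (p.1.2 : ℝ) = 0} ∩ {p : Q | (p.2.2 : ℝ) = 1}) ∩
          (fun p : Q => ((p.1.1, p.2.1) : C × C)) ⁻¹' {p | D.τ.SameCycle p.1 (D.up p.2)}) ∪
      (({p : Q | (p.1.2 : ℝ) = 1} ∩ {p : Q | (p.2.2 : ℝ) = 1}) ∩
          (fun p : Q => ((p.1.1, p.2.1) : C × C)) ⁻¹'
            {p | D.τ.SameCycle (D.up p.1) (D.up p.2)})))) := by
    have hb0 : ∀ p : Diagram.Y C, (p.2 : ℝ) = 0 → D.base p = p.1 := fun p hp => if_pos hp
    have hb1 : ∀ p : Diagram.Y C, (p.2 : ℝ) = 1 → D.base p = D.up p.1 := fun p hp =>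
      if_neg (by rw [hp]; exact one_ne_zero)
    ext ⟨p, q⟩
    constructor
    · rintro (hpq | ⟨hp | hp, hq | hq, hcyc⟩)
      · exact Or.inl hpq
      · refine Or.inr (Or.inl ⟨⟨hp, hq⟩, ?_⟩)
        rw [hb0 _ hp, hb0 _ hq] at hcyc
        exact hcyc
      · refine Or.inr (Or.inr (Or.inr (Or.inl ⟨⟨hp, hq⟩, ?_⟩)))
        rw [hb0 _ hp, hb1 _ hq] at hcyc
        exact hcyc
      · refine Or.inr (Or.inr (Or.inl ⟨⟨hp, hq⟩, ?_⟩))
        rw [hb1 _ hp, hb0 _ hq] at hcyc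
        exact hcyc
      · refine Or.inr (Or.inr (Or.inr (Or.inr ⟨⟨hp, hq⟩, ?_⟩)))
        rw [hb1 _ hp, hb1 _ hq] at hcyc
        exact hcyc
    · rintro (hpq | ⟨⟨hp, hq⟩, hcyc⟩ | ⟨⟨hp, hq⟩, hcyc⟩ | ⟨⟨hp, hq⟩, hcyc⟩ | ⟨⟨hp, hq⟩, hcyc⟩)
      · exact Or.inl hpq
      · refine Or.inr ⟨Or.inl hp, Or.inl hq, ?_⟩
        rw [hb0 _ hp, hb0 _ hq]
        exact hcyc
      · refine Or.inr ⟨Or.inr hp, Or.inl hq, ?_⟩
        rw [hb1 _ hp, hb0 _ hq]
        exact hcyc
      · refine Or.inr ⟨Or.inl hp, Or.inr hq, ?_⟩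
        rw [hb0 _ hp, hb1 _ hq]
        exact hcyc
      · refine Or.inr ⟨Or.inr hp, Or.inr hq, ?_⟩
        rw [hb1 _ hp, hb1 _ hq]
        exact hcyc
  rw [hset]
  have e1 : ∀ c : ℝ, IsClosed {p : Q | (p.1.2 : ℝ) = c} := fun c =>
    isClosed_eq hc1 continuous_const
  have e2 : ∀ c : ℝ, IsClosed {p : Q | (p.2.2 : ℝ) = c} := fun c =>
    isClosed_eq hc2 continuous_const
  exact (isClosed_eq continuous_fst continuous_snd).union
    ((((e1 0).inter (e2 0)).inter (G0.preimage hb)).union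
    ((((e1 1).inter (e2 0)).inter (G1.preimage hb)).union
    ((((e1 0).inter (e2 1)).inter (G1'.preimage hb)).union
    (((e1 1).inter (e2 1)).inter (G2.preimage hb)))))

end Horo
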