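import Pool.Agent.Horo.DStmts

/-! The surface of a diagram is connected. -/

open Topology Filter Set

namespace Horo

theorem connX_range {Z X : Type} [TopologicalSpace Z] [TopologicalSpace X] [PreconnectedSpace Z]
    (g : Z → X) (hg : Continuous g) (a b : Z) :
    connectedComponent (g a) = connectedComponent (g b) :=
  connectedComponent_eq ((isPreconnected_range hg).subset_connectedComponent
    (mem_range_self a) (mem_range_self b))

theorem connX (C : Type) [TopologicalSpace C] [AddAction ℝ C] : Stmt_connX C := by
  intro _ _ hB _ D
  have hproj : Continuous D.proj := continuous_quotient_mk'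
  have h1 : ∀ (x : C) (t t' : unitInterval),
      connectedComponent (D.proj (x, t)) = connectedComponent (D.proj (x, t')) := by
    intro x t t'
    exact connX_range (fun s : unitInterval => D.proj (x, s))
      (hproj.comp (continuous_const.prodMk continuous_id)) t t'
  have h2 : ∀ (x : C) (u : ℝ),
      connectedComponent (D.proj (x, 0)) = connectedComponent (D.proj (u +ᵥ x, 0)) := by
    intro x u
    have hc : Continuous (fun v : ℝ => D.proj (v +ᵥ x, (0 : unitInterval))) := by
      refine hproj.comp (Continuous.prodMk ?_ continuous_const)
      exact (BaseSpace.cont (C := C)).comp (continuous_id.prodMk continuous_const)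
    have := connX_range _ hc 0 u
    simpa using this
  have h3 : ∀ x : C, D.proj (x, 1) = D.proj (D.up x, 0) := by
    intro x
    refine Quotient.sound ?_
    refine Or.inr ⟨Or.inr (by simp), Or.inl (by simp), ?_⟩
    simp only [Diagram.base]
    simp only [Icc.coe_one, one_ne_zero, if_false, Icc.coe_zero, if_true]
    exact Equiv.Perm.SameCycle.refl _ _
  have h4 : ∀ x y : C,
      connectedComponent (D.proj (x, 0)) = connectedComponent (D.proj (y, 0)) := by
    intro x y
    have := D.conn x y
    induction this with
    | rel x y h =>
      rcases h with ⟨u, rfl⟩ | rfl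
      · exact h2 x u
      · rw [← h3]; exact h1 x 0 1
    | refl x => rfl
    | symm x y _ ih => exact ih.symm
    | trans x y z _ _ ih1 ih2 => exact ih1.trans ih2
  have h5 : ∀ p q : D.X, connectedComponent p = connectedComponent q := by
    intro p q
    induction p using Quotient.inductionOn with
    | _ a =>
    induction q using Quotient.inductionOn with
    | _ b =>
    obtain ⟨x, t⟩ := a
    obtain ⟨y, s⟩ := b
    exact (h1 x t 0).trans ((h4 x y).trans (h1 y 0 s))
  have hpre : PreconnectedSpace D.X := by
    rw [preconnectedSpace_iff_connectedComponent]
    intro p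
    refine eq_univ_of_forall (fun q => ?_)
    rw [h5 p q]
    exact mem_connectedComponent
  exact { toPreconnectedSpace := hpre, toNonempty := ⟨D.proj (Classical.arbitrary C, 0)⟩ }

end Horo
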