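import Pool.Agent.Horo.DStmts

/-! Continuity of the parametrisation and of the coordinate. -/

set_option autoImplicit false

open Topology Filter Set Complex

namespace Horo

section

variable {C : Type} [TopologicalSpace C] [AddAction ℝ C]

theorem contPsi_bendLip (D : Diagram C) (x : C) (u v : ℝ) :
    |D.bend x u - D.bend x v| ≤ D.κ * |u - v| := by
  have h1 := D.bend_add x v (u - v)
  rw [add_sub_cancel] at h1
  rw [h1, add_sub_cancel_left]
  exact D.bend_le _ _

theorem contPsi_bend (D : Diagram C) (x : C) : Continuous (D.bend x) := by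
  have h : LipschitzWith (Real.toNNReal D.κ) (D.bend x) := LipschitzWith.of_dist_le_mul (by
    intro u v
    refine (contPsi_bendLip D x u v).trans ?_
    exact mul_le_mul_of_nonneg_right (Real.le_coe_toNNReal _) (abs_nonneg _))
  exact h.continuous

theorem contPsi_bend0 (D : Diagram C) (x : C) : D.bend x 0 = 0 := by
  have := D.bend_le x 0
  rw [abs_zero, mul_zero] at this
  exact abs_nonpos_iff.1 this

theorem contPsi_vadd [BaseSpace C] (x : C) : Continuous (fun u : ℝ => u +ᵥ x) := by
  have h := BaseSpace.cont (C := C)
  exact h.comp (Continuous.prodMk continuous_id continuous_const)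

theorem contPsi_pt (D : Diagram C) {Z : Type*} [TopologicalSpace Z] (f : Z → C) (g : Z → ℝ)
    (hf : Continuous f) (hg : Continuous g) : Continuous (fun a => D.pt (f a) (g a)) := by
  have h1 : Continuous (fun a => g a / D.wid (f a)) :=
    hg.div (D.wid_cont.comp hf) (fun a => (D.wid_pos _).ne')
  exact hf.prodMk (continuous_projIcc.comp h1)

theorem contPsi_proj (D : Diagram C) : Continuous D.proj := continuous_quotient_mk'

/-- continuity on a product with a finite discrete space -/
theorem contPsi_disc {k : ℕ} {Z T : Type*} [TopologicalSpace Z] [TopologicalSpace T]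
    (f : Fin k × Bool × Z → T) (h : ∀ i b, Continuous (fun z => f (i, b, z))) : Continuous f := by
  rw [continuous_iff_continuousAt]
  rintro ⟨i, b, z⟩
  have h1 := (h i b).continuousAt (x := z)
  unfold ContinuousAt at h1 ⊢
  rw [nhds_prod_eq, nhds_prod_eq, nhds_discrete, nhds_discrete]
  rw [show (pure i : Filter (Fin k)) ×ˢ ((pure b : Filter Bool) ×ˢ 𝓝 z) =
    map (fun z => (i, b, z)) (𝓝 z) by
      rw [pure_prod, pure_prod, map_map]
      rfl]
  exact h1

end

theorem contPsi (C : Type) [TopologicalSpace C] [AddAction ℝ C] (h1 : Stmt_roots)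
    (h2 : Stmt_finSupp C) : Stmt_contPsi C := by
  intro _ _ _ D y r hr
  have hlen : 0 < D.len y := (h2 D).2.1 y
  constructor
  · refine contPsi_disc _ fun i b => ?_
    rcases b with _ | _
    · show Continuous fun z : Icc (0 : ℝ) r × Icc (-r) r =>
        D.proj (D.pt ((z.2 : ℝ) +ᵥ D.up.symm ((D.τ ^ (i : ℕ)) y))
          (D.wid (D.up.symm ((D.τ ^ (i : ℕ)) y)) - (z.1 : ℝ)))
      refine (contPsi_proj D).comp (contPsi_pt D _ _ ?_ ?_)
      · exact (contPsi_vadd _).comp (continuous_subtype_val.comp continuous_snd)
      · fun_prop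
    · show Continuous fun z : Icc (0 : ℝ) r × Icc (-r) r =>
        D.proj (D.pt ((z.2 : ℝ) +ᵥ ((D.τ ^ (i : ℕ)) y)) (z.1 : ℝ))
      refine (contPsi_proj D).comp (contPsi_pt D _ _ ?_ ?_)
      · exact (contPsi_vadd _).comp (continuous_subtype_val.comp continuous_snd)
      · fun_prop
  · have hmk : ∀ f g : Icc (0 : ℝ) r × Icc (-r) r → ℝ, Continuous f → Continuous g →
        Continuous (fun z => (⟨f z, g z⟩ : ℂ)) := by
      intro f g hf hg
      exact Complex.equivRealProdCLM.symm.continuous.comp (hf.prodMk hg)
    refine contPsi_disc _ fun i b => ?_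
    rcases b with _ | _
    · show Continuous fun z : Icc (0 : ℝ) r × Icc (-r) r =>
        rt (D.len y) (-D.devL ((D.τ ^ (i : ℕ)) y) z.1 z.2) * et (D.len y) * om (D.len y) ^ (i : ℕ)
      have h3 : Continuous fun z : Icc (0 : ℝ) r × Icc (-r) r =>
          -D.devL ((D.τ ^ (i : ℕ)) y) z.1 z.2 := by
        refine Continuous.neg ?_
        refine hmk _ _ ?_ ?_
        · have := contPsi_bend D (D.up.symm ((D.τ ^ (i : ℕ)) y))
          fun_prop
        · fun_prop
      have h4 : Continuous fun z : Icc (0 : ℝ) r × Icc (-r) r =>
          rt (D.len y) (-D.devL ((D.τ ^ (i : ℕ)) y) z.1 z.2) := by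
        rw [continuous_iff_continuousAt]
        intro z
        have h5 : ContinuousAt (rt (D.len y)) (-D.devL ((D.τ ^ (i : ℕ)) y) z.1 z.2) := by
          apply (h1 (D.len y) hlen).2.2.1
          by_cases h6 : (z.2 : ℝ) = 0
          · have h7 : (-D.devL ((D.τ ^ (i : ℕ)) y) z.1 z.2) = ((z.1 : ℝ) : ℂ) := by
              apply Complex.ext
              · simp [Diagram.devL, h6, contPsi_bend0]
              · simp [Diagram.devL, h6]
            rw [h7]
            rcases (z.1.2.1).lt_or_eq with h8 | h8
            · left
              rw [Complex.mem_slitPlane_iff]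
              left
              simpa using h8
            · right
              rw [← h8]
              simp
          · left
            rw [Complex.mem_slitPlane_iff]
            right
            simpa [Diagram.devL] using h6
        exact ContinuousAt.comp (f := fun z : Icc (0 : ℝ) r × Icc (-r) r =>
          -D.devL ((D.τ ^ (i : ℕ)) y) z.1 z.2) h5 h3.continuousAt
      exact (h4.mul continuous_const).mul continuous_const
    · show Continuous fun z : Icc (0 : ℝ) r × Icc (-r) r =>
        rt (D.len y) (D.devR ((D.τ ^ (i : ℕ)) y) z.1 z.2) * om (D.len y) ^ (i : ℕ)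
      have h3 : Continuous fun z : Icc (0 : ℝ) r × Icc (-r) r =>
          D.devR ((D.τ ^ (i : ℕ)) y) z.1 z.2 := by
        refine hmk _ _ ?_ ?_
        · have := contPsi_bend D ((D.τ ^ (i : ℕ)) y)
          fun_prop
        · fun_prop
      have h4 : Continuous fun z : Icc (0 : ℝ) r × Icc (-r) r =>
          rt (D.len y) (D.devR ((D.τ ^ (i : ℕ)) y) z.1 z.2) := by
        rw [continuous_iff_continuousAt]
        intro z
        have h5 : ContinuousAt (rt (D.len y)) (D.devR ((D.τ ^ (i : ℕ)) y) z.1 z.2) := by
          apply (h1 (D.len y) hlen).2.2.1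
          by_cases h6 : (z.2 : ℝ) = 0
          · have h7 : (D.devR ((D.τ ^ (i : ℕ)) y) z.1 z.2) = ((z.1 : ℝ) : ℂ) := by
              apply Complex.ext
              · simp [Diagram.devR, h6, contPsi_bend0]
              · simp [Diagram.devR, h6]
            rw [h7]
            rcases (z.1.2.1).lt_or_eq with h8 | h8
            · left
              rw [Complex.mem_slitPlane_iff]
              left
              simpa using h8
            · right
              rw [← h8]
              simp
          · left
            rw [Complex.mem_slitPlane_iff]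
            right
            simpa [Diagram.devR] using h6
        exact ContinuousAt.comp (f := fun z : Icc (0 : ℝ) r × Icc (-r) r =>
          D.devR ((D.τ ^ (i : ℕ)) y) z.1 z.2) h5 h3.continuousAt
      exact h4.mul continuous_const

end Horo
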