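import Pool.Agent.Horo.DStmts

open Topology Filter Set

namespace Horo

theorem finSupp (C : Type) [TopologicalSpace C] [AddAction ℝ C] : Stmt_finSupp C := by
  intro _ _ _ D
  have hS : {x | D.up x ≠ D.dn x}.Finite := by
    choose r hr0 hr using D.near
    obtain ⟨t, ht⟩ := (isCompact_univ (X := C)).elim_nhds_subcover
      (fun x => (fun u : ℝ => u +ᵥ x) '' Ioo (-(r x)) (r x))
      (fun x _ => (BaseSpace.isOpen_ball x (r x) (hr0 x)).mem_nhds
        ⟨0, ⟨by linarith [hr0 x], hr0 x⟩, by simp⟩)
    refine t.finite_toSet.subset ?_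
    intro z hz
    have hz' := ht.2 (mem_univ z)
    simp only [mem_iUnion] at hz'
    obtain ⟨x, hx, u, hu, rfl⟩ := hz'
    simp only at hz ⊢
    rcases lt_trichotomy u 0 with h | h | h
    · exfalso
      have := hr x (-u) (by linarith) (by linarith [hu.1])
      rw [neg_neg] at this
      exact hz (this.2.2.1.trans this.2.2.2.symm)
    · subst h
      simpa using hx
    · exfalso
      have := hr x u h hu.2
      exact hz (this.1.trans this.2.1.symm)
  have hF : {y | D.τ y ≠ y}.Finite := by
    refine (hS.image D.up).subset ?_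
    intro y hy
    refine ⟨D.up.symm y, ?_, by simp⟩
    intro h
    apply hy
    rw [D.τ_apply, ← h]
    simp
  have hlen : ∀ y, 0 < D.len y := by
    intro y
    apply Function.minimalPeriod_pos_of_mem_periodicPts
    by_cases hy : D.τ y = y
    · exact ⟨1, one_pos, by simpa [Function.IsPeriodicPt, Function.IsFixedPt] using hy⟩
    · have hmem : ∀ n : ℕ, (D.τ : C → C)^[n] y ∈ {y | D.τ y ≠ y} := by
        intro n
        induction n with
        | zero => simpa using hy
        | succ n ih =>
          rw [Function.iterate_succ_apply']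
          intro h
          exact ih (D.τ.injective h)
      obtain ⟨m, n, hmn, h⟩ := hF.exists_lt_map_eq_of_forall_mem hmem
      refine ⟨n - m, by omega, ?_⟩
      have h2 : (D.τ : C → C)^[m] ((D.τ : C → C)^[n - m] y) = (D.τ : C → C)^[m] y := by
        rw [← Function.iterate_add_apply, show m + (n - m) = n by omega]
        exact h.symm
      exact (D.τ.injective.iterate m) h2
  refine ⟨hF, hlen, ?_⟩
  rintro y y' ⟨i, hi⟩
  have hl := hlen y
  have hfix : (D.τ ^ D.len y) y = y := by
    rw [← Equiv.Perm.iterate_eq_pow]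
    exact Function.iterate_minimalPeriod
  have hi0 : 0 ≤ i % (D.len y : ℤ) := Int.emod_nonneg _ (by omega)
  have hi1 : i % (D.len y : ℤ) < D.len y := Int.emod_lt_of_pos _ (by omega)
  refine ⟨(i % (D.len y : ℤ)).toNat, by omega, ?_⟩
  have hdec : i = ((i % (D.len y : ℤ)).toNat : ℤ) + (D.len y : ℤ) * (i / (D.len y : ℤ)) := by
    rw [Int.toNat_of_nonneg hi0]
    exact (Int.emod_add_mul_ediv i _).symm
  have h3 : (D.τ ^ ((D.len y : ℤ) * (i / (D.len y : ℤ)))) y = y := by
    rw [zpow_mul, zpow_natCast]
    exact Equiv.Perm.zpow_apply_eq_self_of_apply_eq_self hfix _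
  rw [hdec, zpow_add, Equiv.Perm.mul_apply, h3, zpow_natCast] at hi
  exact hi

end Horo
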