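import Pool.Agent.Horo.DStmts

/-! Good radii exist. -/

open Topology Filter Set Complex

namespace Horo

section

variable {C : Type} [TopologicalSpace C] [AddAction ℝ C]

lemma goodRad_ev {a : ℝ} (ha : 0 < a) : ∀ᶠ r : ℝ in 𝓝[>] 0, 0 < r ∧ r < a := by
  filter_upwards [Ioo_mem_nhdsGT ha] with r hr
  exact hr

lemma goodRad_cycle_finite {τ : Equiv.Perm C} {y : C} {n : ℕ}
    (h : ∀ y', τ.SameCycle y y' → ∃ j : ℕ, j < n ∧ (τ ^ j) y = y') :
    {y' | τ.SameCycle y y'}.Finite := by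
  apply Set.Finite.subset ((Finset.range n).finite_toSet.image (fun j => (τ ^ j) y))
  intro y' hy'
  obtain ⟨j, hj, hj2⟩ := h y' hy'
  exact ⟨j, by simpa using hj, hj2⟩

lemma goodRad_pair [T2Space C] [BaseSpace C] (a b : C) :
    ∀ᶠ r : ℝ in 𝓝[>] 0, ∀ u u' : ℝ, |u| ≤ r → |u'| ≤ r → u +ᵥ a = u' +ᵥ b → u = u' ∧ a = b := by
  classical
  by_cases hab : a = b
  · subst hab
    obtain ⟨r0, hr0, hinj⟩ := BaseSpace.rad (C := C)
    filter_upwards [goodRad_ev hr0] with r hr u u' hu hu' he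
    refine ⟨?_, rfl⟩
    apply hinj a _ _ he
    · rw [mem_Icc, ← abs_le]
      linarith [hr.2]
    · rw [mem_Icc, ← abs_le]
      linarith [hr.2]
  · obtain ⟨V, W, hV, hW, haV, hbW, hVW⟩ := t2_separation hab
    have key : ∀ (c : C) (O : Set C), IsOpen O → c ∈ O →
        ∃ ρ : ℝ, 0 < ρ ∧ ∀ u : ℝ, |u| < ρ → u +ᵥ c ∈ O := by
      intro c O hO hc
      have hcont : Continuous (fun u : ℝ => u +ᵥ c) :=
        (BaseSpace.cont (C := C)).comp (by fun_prop : Continuous (fun u : ℝ => (u, c)))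
      have h0 : (fun u : ℝ => u +ᵥ c) 0 ∈ O := by simpa using hc
      have := hcont.continuousAt.preimage_mem_nhds (hO.mem_nhds h0)
      rw [Metric.mem_nhds_iff] at this
      obtain ⟨ρ, hρ, hball⟩ := this
      refine ⟨ρ, hρ, fun u hu => ?_⟩
      apply hball
      rw [Metric.mem_ball, Real.dist_eq, sub_zero]
      exact hu
    obtain ⟨ρ1, hρ1, h1⟩ := key a V hV haV
    obtain ⟨ρ2, hρ2, h2⟩ := key b W hW hbW
    filter_upwards [goodRad_ev hρ1, goodRad_ev hρ2] with r hr1 hr2 u u' hu hu' he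
    exfalso
    have e1 := h1 u (lt_of_le_of_lt hu hr1.2)
    have e2 := h2 u' (lt_of_le_of_lt hu' hr2.2)
    rw [he] at e1
    exact Set.disjoint_left.mp hVW e1 e2

end

/-- Good radii exist. -/
theorem goodRad (C : Type) [TopologicalSpace C] [AddAction ℝ C] (hfin : Stmt_finSupp C) :
    Stmt_goodRad C := by
  intro _ _ _ D y
  classical
  obtain ⟨_, hlen, hcyc⟩ := hfin D
  have hF : {y' | D.τ.SameCycle y y'}.Finite := goodRad_cycle_finite (hcyc y)
  have hF2 : {p : C × C | D.τ.SameCycle y p.1 ∧ D.τ.SameCycle y p.2}.Finite := hF.prod hF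
  -- single point conditions
  have hsing : ∀ᶠ r : ℝ in 𝓝[>] 0, ∀ y' ∈ {y' | D.τ.SameCycle y y'},
      (2 * r < D.wid y' ∧ 2 * r < D.wid (D.up.symm y')) ∧
      (∀ u, 0 < u → u ≤ r → D.up (u +ᵥ D.up.symm y') = u +ᵥ y' ∧
        D.dn (u +ᵥ D.up.symm y') = u +ᵥ y' ∧
        D.up (-u +ᵥ D.up.symm y') = -u +ᵥ D.τ y' ∧ D.dn (-u +ᵥ D.up.symm y') = -u +ᵥ D.τ y') ∧
      (∀ u, 0 ≤ u → u ≤ r → D.bend (D.up.symm y') u = D.bend y' u) ∧
      (∀ u, 0 ≤ u → u ≤ r → D.bend (D.up.symm y') (-u) = D.bend (D.τ y') (-u)) := by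
    rw [Filter.eventually_all_finite hF]
    intro y' _
    obtain ⟨r1, hr1, h1⟩ := D.near (D.up.symm y')
    obtain ⟨r2, hr2, h2⟩ := D.bend_up (D.up.symm y')
    obtain ⟨r3, hr3, h3⟩ := D.bend_dn (D.up.symm y')
    have hw1 : 0 < D.wid y' / 2 := half_pos (D.wid_pos _)
    have hw2 : 0 < D.wid (D.up.symm y') / 2 := half_pos (D.wid_pos _)
    filter_upwards [goodRad_ev hr1, goodRad_ev hr2, goodRad_ev hr3, goodRad_ev hw1,
      goodRad_ev hw2] with r e1 e2 e3 e4 e5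
    refine ⟨⟨by linarith [e4.2], by linarith [e5.2]⟩, ?_, ?_, ?_⟩
    · intro u hu hur
      have := h1 u hu (lt_of_le_of_lt hur e1.2)
      rw [Equiv.apply_symm_apply] at this
      exact this
    · intro u hu hur
      have := h2 u hu (lt_of_le_of_lt hur e2.2)
      rw [Equiv.apply_symm_apply] at this
      exact this.symm
    · intro u hu hur
      have := h3 u hu (lt_of_le_of_lt hur e3.2)
      exact this.symm
  have hpair : ∀ᶠ r : ℝ in 𝓝[>] 0,
      ∀ p ∈ {p : C × C | D.τ.SameCycle y p.1 ∧ D.τ.SameCycle y p.2},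
      (∀ u u' : ℝ, |u| ≤ r → |u'| ≤ r → u +ᵥ p.1 = u' +ᵥ p.2 → u = u' ∧ p.1 = p.2) ∧
      (∀ u u' : ℝ, |u| ≤ r → |u'| ≤ r → u +ᵥ D.up.symm p.1 = u' +ᵥ D.up.symm p.2 →
        u = u' ∧ D.up.symm p.1 = D.up.symm p.2) := by
    rw [Filter.eventually_all_finite hF2]
    intro p _
    exact (goodRad_pair p.1 p.2).and (goodRad_pair (D.up.symm p.1) (D.up.symm p.2))
  obtain ⟨r, h1, h2, h3⟩ := ((goodRad_ev one_pos).and (hsing.and hpair)).exists
  refine ⟨r, ?_⟩
  exact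
    { pos := h1.1
      le_one := h1.2.le
      wid_right := fun y' hy' => (h2 y' hy').1.1
      wid_left := fun y' hy' => (h2 y' hy').1.2
      up_pos := fun y' hy' u hu hur => ((h2 y' hy').2.1 u hu hur).1
      dn_pos := fun y' hy' u hu hur => ((h2 y' hy').2.1 u hu hur).2.1
      up_neg := fun y' hy' u hu hur => ((h2 y' hy').2.1 u hu hur).2.2.1
      dn_neg := fun y' hy' u hu hur => ((h2 y' hy').2.1 u hu hur).2.2.2
      bend_pos := fun y' hy' u hu hur => (h2 y' hy').2.2.1 u hu hur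
      bend_neg := fun y' hy' u hu hur => (h2 y' hy').2.2.2 u hu hur
      inj_right := fun y' y'' hy' hy'' u u' hu hu' he => (h3 (y', y'') ⟨hy', hy''⟩).1 u u' hu hu' he
      inj_left := fun y' y'' hy' hy'' u u' hu hu' he => by
        obtain ⟨e1, e2⟩ := (h3 (y', y'') ⟨hy', hy''⟩).2 u u' hu hu' he
        exact ⟨e1, D.up.symm.injective e2⟩ }

end Horo
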