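import Pool.Agent.Horo.DStmts
import Pool.Agent.Horo.D.classes

set_option autoImplicit false

open Topology Filter Set Complex

namespace Horo

namespace Diagram

variable {C : Type} [TopologicalSpace C] [AddAction ℝ C] (D : Diagram C)

lemma incrPsi_bend_zero (x : C) : D.bend x 0 = 0 := by
  have := D.bend_add x 0 0
  rw [zero_vadd, add_zero] at this
  linarith

lemma incrPsi_up_symm {y : C} {r : ℝ} (hr : D.GoodRad y r) {z : C} (hz : D.τ.SameCycle y z)
    {u : ℝ} (hu : u ≠ 0) (hur : |u| ≤ r) :
    ∃ z₀, D.τ.SameCycle y z₀ ∧ D.up.symm (u +ᵥ z) = u +ᵥ D.up.symm z₀ ∧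
      D.bend (D.up.symm z₀) u = D.bend z u := by
  rcases lt_or_gt_of_ne hu with h | h
  · obtain ⟨z₀, hz₀⟩ : ∃ z₀, D.τ z₀ = z := D.τ.surjective z
    have hc : D.τ.SameCycle y z₀ := by
      rw [← hz₀, Equiv.Perm.sameCycle_apply_right] at hz; exact hz
    have hr' : -u ≤ r := by rw [abs_of_neg h] at hur; exact hur
    have h1 := hr.up_neg z₀ hc (-u) (by linarith) hr'
    have h2 := hr.bend_neg z₀ hc (-u) (by linarith) hr'
    rw [neg_neg, hz₀] at h1 h2
    exact ⟨z₀, hc, by rw [← h1, Equiv.symm_apply_apply], h2⟩
  · have hr' : u ≤ r := by rw [abs_of_pos h] at hur; exact hur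
    have h1 := hr.up_pos z hz u h hr'
    have h2 := hr.bend_pos z hz u h.le hr'
    exact ⟨z, hz, by rw [← h1, Equiv.symm_apply_apply], h2⟩

end Diagram

open Diagram

/-- The `k`-th power of the coordinate increases as a primitive must. -/
theorem incrPsi (C : Type) [TopologicalSpace C] [AddAction ℝ C] (hroots : Stmt_roots)
    (hF : Stmt_finSupp C) : Stmt_incrPsi C := by
  intro _ _ _ D y r hr P hP
  have hrp := hr.pos
  obtain ⟨-, hlen, hcyc⟩ := hF D
  obtain ⟨-, hpow, -, -, -, hom, het, -⟩ := hroots (D.len y) (hlen y)
  -- values of `P`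
  have hPR : ∀ z, D.τ.SameCycle y z → ∀ v u : ℝ, 0 ≤ v → v ≤ r → |u| ≤ r →
      P (D.ptR z v u) = D.devR z v u := by
    intro z hz v u hv hvr hu
    obtain ⟨j, hj, hjy⟩ := hcyc y z hz
    have hu' := abs_le.1 hu
    have h := hP (⟨j, hj⟩, true, ⟨v, hv, hvr⟩, ⟨u, hu'.1, hu'.2⟩)
    unfold Psi zeta at h
    rw [if_pos rfl, if_pos rfl] at h
    have h' : P (D.ptR ((D.τ ^ j) y) v u)
        = (rt (D.len y) (D.devR ((D.τ ^ j) y) v u) * om (D.len y) ^ j) ^ D.len y := h
    rw [hjy, mul_pow, hpow, ← pow_mul, mul_comm j, pow_mul, hom, one_pow, mul_one] at h'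
    exact h'
  have hPL : ∀ z, D.τ.SameCycle y z → ∀ v u : ℝ, 0 ≤ v → v ≤ r → |u| ≤ r →
      P (D.ptL z v u) = D.devL z v u := by
    intro z hz v u hv hvr hu
    obtain ⟨j, hj, hjy⟩ := hcyc y z hz
    have hu' := abs_le.1 hu
    have h := hP (⟨j, hj⟩, false, ⟨v, hv, hvr⟩, ⟨u, hu'.1, hu'.2⟩)
    unfold Psi zeta at h
    rw [if_neg (by simp), if_neg (by simp)] at h
    have h' : P (D.ptL ((D.τ ^ j) y) v u)
        = (rt (D.len y) (-D.devL ((D.τ ^ j) y) v u) * et (D.len y) * om (D.len y) ^ j)
          ^ D.len y := h
    rw [hjy, mul_pow, mul_pow, hpow, ← pow_mul, mul_comm j, pow_mul, hom, one_pow, mul_one,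
      het] at h'
    rw [h']; ring
  intro a hav hau
  -- unfold the parameter
  obtain ⟨z, hz, v, u, hv, hvr, hur, hcase⟩ : ∃ z, D.τ.SameCycle y z ∧ ∃ v u : ℝ, 0 ≤ v ∧ v < r ∧
      |u| < r ∧ (D.Psi y r a = D.ptR z v u ∨ D.Psi y r a = D.ptL z v u) := by
    refine ⟨(D.τ ^ (a.1 : ℕ)) y, ⟨(a.1 : ℕ), by simp⟩, a.2.2.1, a.2.2.2, a.2.2.1.2.1, hav, hau, ?_⟩
    unfold Psi
    by_cases hb : a.2.1
    · left; rw [if_pos hb]
    · right; rw [if_neg hb]
  have w1 := hr.wid_right z hz
  have w2 := hr.wid_left z hz
  have W1 := D.wid_pos z
  have W2 := D.wid_pos (D.up.symm z)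
  have t1 := D.classes_pt_right (x := z) u v hv (by linarith)
  have t2 := D.classes_pt_left (x := D.up.symm z) u v hv (by linarith)
  constructor
  · intro x s hs hsx hq
    have tx : ((D.pt x s).2 : ℝ) = s / D.wid x := D.classes_pt_snd x s hs.le hsx.le
    have Wx := D.wid_pos x
    have nseam : ¬ IsSeam (D.pt x s) := by
      unfold IsSeam
      rw [tx]
      rintro (h | h)
      · rcases div_eq_zero_iff.1 h with h | h
        · linarith
        · linarith
      · rw [div_eq_one_iff_eq Wx.ne'] at h; linarith
    rcases hcase with h | h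
    · rw [h] at hq
      unfold ptR at hq
      rw [D.classes_proj_eq] at hq
      rcases hq with hq | ⟨h1, -, -⟩
      · have e1 : x = u +ᵥ z := congrArg Prod.fst hq
        have e2 : s / D.wid x = v / D.wid z := by rw [← tx, ← t1, hq]
        have e3 : D.wid x = D.wid z := by rw [e1, D.wid_vadd]
        rw [e3] at e2
        have e4 : s = v := by
          field_simp at e2; exact e2
        subst e4
        subst e1
        refine ⟨min s (min (r - s) (r - |u|)), ?_, ?_⟩
        · exact lt_min hs (lt_min (by linarith) (by linarith))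
        · intro v' u' hv' hu'
          have a1 : |v'| < s := hv'.trans_le (min_le_left _ _)
          have a2 : |v'| < r - s := hv'.trans_le ((min_le_right _ _).trans (min_le_left _ _))
          have a3 : |u'| < r - |u| := hu'.trans_le ((min_le_right _ _).trans (min_le_right _ _))
          have b1 := abs_lt.1 a1
          have b2 := abs_lt.1 a2
          have b3 : |u' + u| ≤ r := (abs_add_le _ _).trans (by linarith)
          have c1 := hPR z hz (s + v') (u' + u) (by linarith) (by linarith) b3
          have c2 := hPR z hz s u hs.le hvr.le hur.le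
          unfold ptR at c1 c2
          rw [vadd_vadd, c1, c2]
          unfold devR
          apply Complex.ext
          · simp only [Complex.add_re]
            rw [add_comm u' u, D.bend_add]; ring
          · simp only [Complex.add_im]; ring
      · exact absurd h1 nseam
    · rw [h] at hq
      unfold ptL at hq
      rw [D.classes_proj_eq] at hq
      rcases hq with hq | ⟨h1, -, -⟩
      · have e1 : x = u +ᵥ D.up.symm z := congrArg Prod.fst hq
        have e2 : s / D.wid x = 1 - v / D.wid (D.up.symm z) := by rw [← tx, ← t2, hq]
        have e3 : D.wid x = D.wid (D.up.symm z) := by rw [e1, D.wid_vadd]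
        rw [e3] at e2
        have e4 : s = D.wid (D.up.symm z) - v := by
          field_simp at e2; exact e2
        rw [e3] at hsx
        have hv0 : 0 < v := by linarith
        subst e4
        subst e1
        refine ⟨min v (min (r - v) (r - |u|)), ?_, ?_⟩
        · exact lt_min hv0 (lt_min (by linarith) (by linarith))
        · intro v' u' hv' hu'
          have a1 : |v'| < v := hv'.trans_le (min_le_left _ _)
          have a2 : |v'| < r - v := hv'.trans_le ((min_le_right _ _).trans (min_le_left _ _))
          have a3 : |u'| < r - |u| := hu'.trans_le ((min_le_right _ _).trans (min_le_right _ _))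
          have b1 := abs_lt.1 a1
          have b2 := abs_lt.1 a2
          have b3 : |u' + u| ≤ r := (abs_add_le _ _).trans (by linarith)
          have c1 := hPL z hz (v - v') (u' + u) (by linarith) (by linarith) b3
          have c2 := hPL z hz v u hv hvr.le hur.le
          unfold ptL at c1 c2
          have e5 : D.wid (D.up.symm z) - v + v' = D.wid (D.up.symm z) - (v - v') := by ring
          rw [vadd_vadd, e5, c1, c2]
          unfold devL
          apply Complex.ext
          · simp only [Complex.add_re]
            rw [add_comm u' u, D.bend_add]; ring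
          · simp only [Complex.add_im]; ring
      · exact absurd h1 nseam
  · intro y' hq
    have ty : ((D.pt y' 0).2 : ℝ) = 0 := by
      rw [D.classes_pt_snd y' 0 le_rfl (D.wid_pos _).le, zero_div]
    have by' : D.base (D.pt y' 0) = y' := by
      unfold base; rw [if_pos ty]; rfl
    -- position of `y'`
    have hpos : D.τ.SameCycle y y' ∨
        ∃ z', D.τ.SameCycle y z' ∧ ∃ u₀ : ℝ, u₀ ≠ 0 ∧ |u₀| < r ∧ y' = u₀ +ᵥ z' := by
      rcases hcase with h | h
      · rw [h] at hq
        unfold ptR at hq
        rw [D.classes_proj_eq] at hq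
        rcases hq with hq | ⟨-, h2, h3⟩
        · have e1 : y' = u +ᵥ z := congrArg Prod.fst hq
          by_cases hu0 : u = 0
          · left; rw [e1, hu0, zero_vadd]; exact hz
          · right; exact ⟨z, hz, u, hu0, hur, e1⟩
        · have hv0 : v = 0 := by
            rcases h2 with h2 | h2
            · rw [t1] at h2
              rcases div_eq_zero_iff.1 h2 with h | h
              · exact h
              · linarith
            · rw [t1, div_eq_one_iff_eq W1.ne'] at h2
              linarith
          have hb : D.base (D.pt (u +ᵥ z) v) = u +ᵥ z := by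
            unfold base
            rw [if_pos (by rw [t1, hv0, zero_div])]
            rfl
          rw [hb, by'] at h3
          by_cases hu0 : u = 0
          · left; rw [hu0, zero_vadd] at h3; exact hz.trans h3.symm
          · right
            exact ⟨z, hz, u, hu0, hur, h3.eq_of_right (D.classes_fixed hr hz hu0 hur.le)⟩
      · rw [h] at hq
        unfold ptL at hq
        rw [D.classes_proj_eq] at hq
        rcases hq with hq | ⟨-, h2, h3⟩
        · exfalso
          have e2 : (0 : ℝ) = 1 - v / D.wid (D.up.symm z) := by rw [← t2, ← hq, ty]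
          have : v / D.wid (D.up.symm z) = 1 := by linarith
          rw [div_eq_one_iff_eq W2.ne'] at this
          linarith
        · have hv0 : v = 0 := by
            rcases h2 with h2 | h2
            · rw [t2] at h2
              have : v / D.wid (D.up.symm z) = 1 := by linarith
              rw [div_eq_one_iff_eq W2.ne'] at this
              linarith
            · rw [t2] at h2
              have : v / D.wid (D.up.symm z) = 0 := by linarith
              rcases div_eq_zero_iff.1 this with h | h
              · exact h
              · linarith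
          have hb : D.base (D.pt (u +ᵥ D.up.symm z) (D.wid (D.up.symm z) - v))
              = D.up (u +ᵥ D.up.symm z) := by
            unfold base
            rw [if_neg (by rw [t2, hv0, zero_div]; norm_num)]
            rfl
          rw [hb, by'] at h3
          rcases lt_trichotomy u 0 with hu0 | hu0 | hu0
          · right
            have h5 := hr.up_neg z hz (-u) (by linarith)
              (by rw [abs_of_neg hu0] at hur; exact hur.le)
            rw [neg_neg] at h5
            have hτ : D.τ.SameCycle y (D.τ z) := by
              rw [Equiv.Perm.sameCycle_apply_right]; exact hz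
            rw [h5] at h3
            exact ⟨D.τ z, hτ, u, hu0.ne, hur,
              h3.eq_of_right (D.classes_fixed hr hτ hu0.ne hur.le)⟩
          · left
            rw [hu0, zero_vadd, Equiv.apply_symm_apply] at h3
            exact hz.trans h3.symm
          · right
            have h5 := hr.up_pos z hz u hu0 (by rw [abs_of_pos hu0] at hur; exact hur.le)
            rw [h5] at h3
            exact ⟨z, hz, u, hu0.ne', hur,
              h3.eq_of_right (D.classes_fixed hr hz hu0.ne' hur.le)⟩
    rcases hpos with hy' | ⟨z', hz', u₀, hu0, hu0r, rfl⟩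
    · -- on the cycle
      have c0 := hPR y' hy' 0 0 le_rfl hrp.le (by rw [abs_zero]; exact hrp.le)
      unfold ptR at c0
      rw [zero_vadd] at c0
      have c0' : P (D.proj (D.pt y' 0)) = 0 := by
        rw [c0]; unfold devR; rw [D.incrPsi_bend_zero]
        apply Complex.ext <;> simp
      refine ⟨r, hrp, fun y'' hy'' v' u' hv' hvr' hu' => ?_⟩
      have hyy := hy'.trans hy''
      have c1 := hPR y'' hyy v' u' hv' hvr'.le hu'.le
      have c2 := hPL y'' hyy v' u' hv' hvr'.le hu'.le
      unfold ptR at c1
      unfold ptL at c2
      rw [c1, c2, c0', zero_add, zero_add]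
      exact ⟨rfl, rfl⟩
    · -- off the cycle
      have c0 := hPR z' hz' 0 u₀ le_rfl hrp.le hu0r.le
      unfold ptR at c0
      obtain ⟨z₀, hz₀, hz1, hz2⟩ := D.incrPsi_up_symm hr hz' hu0 hu0r.le
      refine ⟨r - |u₀|, by linarith, fun y'' hy'' v' u' hv' hvr' hu' => ?_⟩
      have hy2 := hy''.eq_of_left (D.classes_fixed hr hz' hu0 hu0r.le)
      subst hy2
      have hab := abs_nonneg u₀
      have b3 : |u' + u₀| ≤ r := (abs_add_le _ _).trans (by linarith)
      have c1 := hPR z' hz' v' (u' + u₀) hv' (by linarith) b3
      have c2 := hPL z₀ hz₀ v' (u' + u₀) hv' (by linarith) b3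
      unfold ptR at c1
      unfold ptL at c2
      rw [hz1, D.wid_vadd, vadd_vadd, vadd_vadd, c1, c2, c0]
      constructor
      · unfold devR
        apply Complex.ext
        · simp only [Complex.add_re]
          rw [add_comm u' u₀, D.bend_add]; ring
        · simp only [Complex.add_im]; ring
      · unfold devR devL
        apply Complex.ext
        · simp only [Complex.add_re]
          rw [add_comm u' u₀, D.bend_add, hz2]; ring
        · simp only [Complex.add_im]; ring

end Horo
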