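import Pool.Agent.Horo.DStmts

set_option autoImplicit false

open Topology Filter Set Complex

namespace Horo

namespace Diagram

variable {C : Type} [TopologicalSpace C] [AddAction ℝ C] (D : Diagram C)

lemma injPsi_bend_zero (x : C) : D.bend x 0 = 0 := by
  have := D.bend_add x 0 0
  rw [zero_vadd, add_zero] at this
  linarith

lemma injPsi_cycle (y : C) (j : ℕ) : D.τ.SameCycle y ((D.τ ^ j) y) :=
  ⟨(j : ℤ), by rw [zpow_natCast]⟩

lemma injPsi_pow_len (y : C) : (D.τ ^ D.len y) y = y := by
  unfold len
  rw [← Equiv.Perm.iterate_eq_pow]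
  exact Function.iterate_minimalPeriod

lemma injPsi_inj (y : C) {i j : ℕ} (hi : i < D.len y) (hj : j < D.len y)
    (h : (D.τ ^ i) y = (D.τ ^ j) y) : i = j := by
  rw [← Equiv.Perm.iterate_eq_pow, ← Equiv.Perm.iterate_eq_pow] at h
  exact Function.iterate_injOn_Iio_minimalPeriod hi hj h

end Diagram

open Diagram

/-- The coordinate separates exactly the points of the surface. -/
theorem injPsi (C : Type) [TopologicalSpace C] [AddAction ℝ C] (hroots : Stmt_roots)
    (hclasses : Stmt_classes C) (hfin : Stmt_finSupp C) : Stmt_injPsi C := by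
  intro _ _ _ D y r hr
  have hk : 0 < D.len y := (hfin D).2.1 y
  obtain ⟨h0, hpow, -, hpos, hneg, hom, het, hinj, -, -⟩ := hroots (D.len y) hk
  have hcl := hclasses D y r hr
  have hr0 := hr.pos
  set k := D.len y with hkdef
  set c : ℕ → C := fun j => (D.τ ^ j) y with hc
  have hcy : ∀ j, D.τ.SameCycle y (c j) := fun j => D.injPsi_cycle y j
  have hck : c k = c 0 := by
    simp only [hc, hkdef, D.injPsi_pow_len, pow_zero, Equiv.Perm.one_apply]
  have hcs : ∀ j, D.τ (c j) = c (j + 1) := by
    intro j
    simp only [hc, pow_succ', Equiv.Perm.mul_apply]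
  have hcinj : ∀ i j, i < k → j < k → c i = c j → i = j := fun i j hi hj h =>
    D.injPsi_inj y hi hj h
  have hRk : ∀ W j, (rt k W * om k ^ j) ^ k = W := by
    intro W j
    rw [mul_pow, hpow, ← pow_mul, mul_comm j k, pow_mul, hom, one_pow, mul_one]
  have hLk : ∀ W j, (rt k (-W) * et k * om k ^ j) ^ k = W := by
    intro W j
    rw [mul_pow, mul_pow, hpow, het, ← pow_mul, mul_comm j k, pow_mul, hom, one_pow]
    ring
  have hR0 : ∀ x v, D.devR x v 0 = 0 ↔ v = 0 := by
    intro x v
    constructor
    · intro h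
      have := congrArg Complex.re h
      simpa [Diagram.devR, D.injPsi_bend_zero] using this
    · rintro rfl
      apply Complex.ext <;> simp [Diagram.devR, D.injPsi_bend_zero]
  have hL0 : ∀ x v, D.devL x v 0 = 0 ↔ v = 0 := by
    intro x v
    constructor
    · intro h
      have := congrArg Complex.re h
      simpa [Diagram.devL, D.injPsi_bend_zero] using this
    · rintro rfl
      apply Complex.ext <;> simp [Diagram.devL, D.injPsi_bend_zero]
  have hR1 : ∀ x v u, D.devR x v u = 0 → u = 0 ∧ v = 0 := by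
    intro x v u h
    have h1 : u = 0 := congrArg Complex.im h
    subst h1
    exact ⟨rfl, (hR0 x v).1 h⟩
  have hL1 : ∀ x v u, D.devL x v u = 0 → u = 0 ∧ v = 0 := by
    intro x v u h
    have h1 : u = 0 := congrArg Complex.im h
    subst h1
    exact ⟨rfl, (hL0 x v).1 h⟩
  -- right - right
  have hRR : ∀ j j' v v' u u', j < k → j' < k → 0 ≤ v → v ≤ r → 0 ≤ v' → v' ≤ r → |u| ≤ r →
      |u'| ≤ r → (rt k (D.devR (c j) v u) * om k ^ j = rt k (D.devR (c j') v' u') * om k ^ j' ↔
        D.ptR (c j) v u = D.ptR (c j') v' u') := by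
    intro j j' v v' u u' hj hj' hv hvr hv' hvr' hu hu'
    rw [(hcl (c j) (c j') (hcy j) (hcy j') v v' u u' hv hvr hv' hvr' hu hu').1]
    constructor
    · intro h
      have hD : D.devR (c j) v u = D.devR (c j') v' u' := by
        rw [← hRk (D.devR (c j) v u) j, h, hRk]
      by_cases hz : D.devR (c j) v u = 0
      · right
        obtain ⟨h1, h2⟩ := hR1 _ _ _ hz
        rw [hD] at hz
        obtain ⟨h3, h4⟩ := hR1 _ _ _ hz
        exact ⟨h2, h4, h1, h3⟩
      · left
        rw [← hD] at h
        have hjj := hinj _ hz j j' hj hj' h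
        subst hjj
        have him : u = u' := congrArg Complex.im hD
        subst him
        have hre : v + D.bend (c j) u = v' + D.bend (c j) u := congrArg Complex.re hD
        exact ⟨by linarith, rfl, rfl⟩
    · rintro (⟨rfl, rfl, h⟩ | ⟨rfl, rfl, rfl, rfl⟩)
      · rw [hcinj j j' hj hj' h]
      · rw [(hR0 _ _).2 rfl, (hR0 _ _).2 rfl, h0, zero_mul, zero_mul]
  -- left - left
  have hLL : ∀ j j' v v' u u', j < k → j' < k → 0 ≤ v → v ≤ r → 0 ≤ v' → v' ≤ r → |u| ≤ r →
      |u'| ≤ r → (rt k (-D.devL (c j) v u) * et k * om k ^ j =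
        rt k (-D.devL (c j') v' u') * et k * om k ^ j' ↔
        D.ptL (c j) v u = D.ptL (c j') v' u') := by
    intro j j' v v' u u' hj hj' hv hvr hv' hvr' hu hu'
    rw [(hcl (c j) (c j') (hcy j) (hcy j') v v' u u' hv hvr hv' hvr' hu hu').2.1]
    have het0 : et k ≠ 0 := by
      intro h
      rw [h, zero_pow (by omega)] at het
      norm_num at het
    constructor
    · intro h
      have hD : D.devL (c j) v u = D.devL (c j') v' u' := by
        rw [← hLk (D.devL (c j) v u) j, h, hLk]
      by_cases hz : D.devL (c j) v u = 0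
      · right
        obtain ⟨h1, h2⟩ := hL1 _ _ _ hz
        rw [hD] at hz
        obtain ⟨h3, h4⟩ := hL1 _ _ _ hz
        exact ⟨h2, h4, h1, h3⟩
      · left
        rw [← hD] at h
        have hjj := hinj _ (neg_ne_zero.2 hz) j j' hj hj' (by
          have h2 : et k * (rt k (-D.devL (c j) v u) * om k ^ j) =
              et k * (rt k (-D.devL (c j) v u) * om k ^ j') := by
            linear_combination h
          exact mul_left_cancel₀ het0 h2)
        subst hjj
        have him : u = u' := congrArg Complex.im hD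
        subst him
        have hre : -v + D.bend (D.up.symm (c j)) u = -v' + D.bend (D.up.symm (c j)) u :=
          congrArg Complex.re hD
        exact ⟨by linarith, rfl, rfl⟩
    · rintro (⟨rfl, rfl, h⟩ | ⟨rfl, rfl, rfl, rfl⟩)
      · rw [hcinj j j' hj hj' h]
      · rw [(hL0 _ _).2 rfl, (hL0 _ _).2 rfl, neg_zero, h0, zero_mul, zero_mul, zero_mul]
  -- right - left
  have hRL : ∀ j j' v v' u u', j < k → j' < k → 0 ≤ v → v ≤ r → 0 ≤ v' → v' ≤ r → |u| ≤ r →
      |u'| ≤ r → (rt k (D.devR (c j) v u) * om k ^ j =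
        rt k (-D.devL (c j') v' u') * et k * om k ^ j' ↔
        D.ptR (c j) v u = D.ptL (c j') v' u') := by
    intro j j' v v' u u' hj hj' hv hvr hv' hvr' hu hu'
    rw [(hcl (c j) (c j') (hcy j) (hcy j') v v' u u' hv hvr hv' hvr' hu hu').2.2]
    constructor
    · intro h
      have hD : D.devR (c j) v u = D.devL (c j') v' u' := by
        rw [← hRk (D.devR (c j) v u) j, h, hLk]
      have him : u = u' := congrArg Complex.im hD
      subst him
      have hre : v + D.bend (c j) u = -v' + D.bend (D.up.symm (c j')) u := congrArg Complex.re hD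
      rw [← hD] at h
      rcases lt_trichotomy u 0 with hu0 | hu0 | hu0
      · have hz : D.devR (c j) v u ≠ 0 := fun hz => hu0.ne (hR1 _ _ _ hz).1
        rw [hneg _ hu0, mul_assoc, ← pow_succ'] at h
        have hb := hr.bend_neg (c j') (hcy j') (-u) (by linarith) (by
          rw [abs_of_neg hu0] at hu
          exact hu)
        rw [neg_neg, hcs] at hb
        have hcc : c j = c (j' + 1) := by
          rcases Nat.lt_or_ge (j' + 1) k with h1 | h1
          · rw [hinj _ hz j (j' + 1) hj h1 h]
          · have h2 : j' + 1 = k := by omega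
            rw [h2, hom, ← pow_zero (om k)] at h
            rw [h2, hck, hinj _ hz j 0 hj hk h]
        rw [hcc] at hre
        refine ⟨by linarith, by linarith, rfl, Or.inr (Or.inr ⟨hu0, ?_⟩)⟩
        rw [hcs, hcc]
      · subst hu0
        rw [D.injPsi_bend_zero, D.injPsi_bend_zero] at hre
        exact ⟨by linarith, by linarith, rfl, Or.inl rfl⟩
      · have hz : D.devR (c j) v u ≠ 0 := fun hz => hu0.ne' (hR1 _ _ _ hz).1
        rw [hpos _ hu0] at h
        have hjj := hinj _ hz j j' hj hj' h
        subst hjj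
        have hb := hr.bend_pos (c j) (hcy j) u hu0.le (by
          rw [abs_of_pos hu0] at hu
          exact hu)
        refine ⟨by linarith, by linarith, rfl, Or.inr (Or.inl ⟨hu0, rfl⟩)⟩
    · rintro ⟨rfl, rfl, rfl, h⟩
      rcases h with rfl | ⟨hu0, h⟩ | ⟨hu0, h⟩
      · rw [(hR0 _ _).2 rfl, (hL0 _ _).2 rfl, neg_zero, h0, zero_mul, zero_mul, zero_mul]
      · have hjj := hcinj j j' hj hj' h
        subst hjj
        have hb := hr.bend_pos (c j) (hcy j) u hu0.le (by
          rw [abs_of_pos hu0] at hu
          exact hu)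
        have hD : D.devL (c j) 0 u = D.devR (c j) 0 u := by
          apply Complex.ext
          · simp [Diagram.devL, Diagram.devR, hb]
          · rfl
        rw [hD, hpos _ hu0]
      · have hb := hr.bend_neg (c j') (hcy j') (-u) (by linarith) (by
          rw [abs_of_neg hu0] at hu
          exact hu)
        rw [neg_neg, ← h] at hb
        have hD : D.devL (c j') 0 u = D.devR (c j) 0 u := by
          apply Complex.ext
          · simp [Diagram.devL, Diagram.devR, hb]
          · rfl
        have hoo : om k ^ j = om k ^ (j' + 1) := by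
          rw [hcs] at h
          rcases Nat.lt_or_ge (j' + 1) k with h1 | h1
          · rw [hcinj j (j' + 1) hj h1 h]
          · have h2 : j' + 1 = k := by omega
            rw [h2, hck] at h
            rw [h2, hom, hcinj j 0 hj hk h, pow_zero]
        rw [hD, hneg _ hu0, hoo, pow_succ']
        ring
  rintro ⟨⟨j, hj⟩, b, ⟨v, hv⟩, ⟨u, hu⟩⟩ ⟨⟨j', hj'⟩, b', ⟨v', hv'⟩, ⟨u', hu'⟩⟩
  have hua : |u| ≤ r := abs_le.2 hu
  have hua' : |u'| ≤ r := abs_le.2 hu'
  cases b <;> cases b'
  · exact hLL j j' v v' u u' hj hj' hv.1 hv.2 hv'.1 hv'.2 hua hua'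
  · have := hRL j' j v' v u' u hj' hj hv'.1 hv'.2 hv.1 hv.2 hua' hua
    exact ⟨fun h => (this.1 h.symm).symm, fun h => (this.2 h.symm).symm⟩
  · exact hRL j j' v v' u u' hj hj' hv.1 hv.2 hv'.1 hv'.2 hua hua'
  · exact hRR j j' v v' u u' hj hj' hv.1 hv.2 hv'.1 hv'.2 hua hua'

end Horo
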