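import Pool.Agent.Horo.DStmts

open Topology Filter Set Complex

namespace Horo

theorem nhdsInt_val {C : Type} [TopologicalSpace C] [AddAction ℝ C] (D : Diagram C) (x : C)
    (s : ℝ) (h0 : 0 ≤ s) (h1 : s ≤ D.wid x) : ((D.pt x s).2 : ℝ) = s / D.wid x := by
  unfold Diagram.pt
  have hw := D.wid_pos x
  show ((Set.projIcc 0 1 zero_le_one (s / D.wid x) : unitInterval) : ℝ) = s / D.wid x
  rw [Set.projIcc_of_mem zero_le_one ⟨div_nonneg h0 hw.le, (div_le_one hw).mpr h1⟩]

theorem nhdsInt (C : Type) [TopologicalSpace C] [AddAction ℝ C] : Stmt_nhdsInt C := by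
  intro _ _ _ D x s r hs hsw hr
  have hw := D.wid_pos x
  set r' := min r (min s (D.wid x - s)) with hr'
  have hr'0 : 0 < r' := lt_min hr (lt_min hs (by linarith))
  have hr1 : r' ≤ r := min_le_left _ _
  have hr2 : r' ≤ s := (min_le_right _ _).trans (min_le_left _ _)
  have hr3 : r' ≤ D.wid x - s := (min_le_right _ _).trans (min_le_right _ _)
  have hopen : IsOpen (((fun u : ℝ => u +ᵥ x) '' Ioo (-r') r') ×ˢ
      {t : unitInterval | |(t : ℝ) * D.wid x - s| < r'}) := by
    refine (BaseSpace.isOpen_ball x r' hr'0).prod ?_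
    exact isOpen_lt (by fun_prop) continuous_const
  have hN : {q | ∃ v u : ℝ, |v| < r' ∧ |u| < r' ∧ q = D.proj (D.pt (u +ᵥ x) (s + v))} ∈
      𝓝 (D.proj (D.pt x s)) := by
    refine IsOpen.mem_nhds ?_ ?_
    · rw [← isQuotientMap_quotient_mk'.isOpen_preimage]
      convert hopen using 1
      ext ⟨c, t⟩
      constructor
      · rintro ⟨v, u, hv, hu, he⟩
        rw [abs_lt] at hv hu
        have hrel : D.Rel (c, t) (D.pt (u +ᵥ x) (s + v)) := Quotient.exact he
        have hval := nhdsInt_val D (u +ᵥ x) (s + v) (by linarith)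
          (by rw [D.wid_vadd]; linarith)
        rw [D.wid_vadd] at hval
        have hns : ¬ Diagram.IsSeam (D.pt (u +ᵥ x) (s + v)) := by
          rintro (h | h)
          · rw [hval, div_eq_zero_iff] at h
            rcases h with h | h <;> linarith
          · rw [hval, div_eq_one_iff_eq hw.ne'] at h
            linarith
        rcases hrel with h | ⟨-, h, -⟩
        · have h1 : c = u +ᵥ x := congrArg Prod.fst h
          have h2 : t = (D.pt (u +ᵥ x) (s + v)).2 := congrArg Prod.snd h
          refine ⟨⟨u, hu, h1.symm⟩, ?_⟩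
          show |(t : ℝ) * D.wid x - s| < r'
          rw [h2, hval, div_mul_cancel₀ _ hw.ne', add_sub_cancel_left, abs_lt]
          exact hv
        · exact absurd h hns
      · rintro ⟨⟨u, hu, h1⟩, ht⟩
        have ht' : |(t : ℝ) * D.wid x - s| < r' := ht
        refine ⟨(t : ℝ) * D.wid x - s, u, ht', abs_lt.mpr hu, ?_⟩
        show D.proj (c, t) = D.proj _
        congr 1
        unfold Diagram.pt
        have h1' : u +ᵥ x = c := h1
        rw [D.wid_vadd, h1', add_sub_cancel, mul_div_cancel_right₀ _ hw.ne', projIcc_val]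
    · exact ⟨0, 0, by simpa using hr'0, by simpa using hr'0, by rw [zero_vadd, add_zero]⟩
  refine Filter.mem_of_superset hN ?_
  rintro q ⟨v, u, hv, hu, he⟩
  exact ⟨v, u, hv.trans_le hr1, hu.trans_le hr1, he⟩

end Horo
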