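import Pool.Agent.Horo.DStmts
import Pool.Agent.Horo.D.classes

set_option autoImplicit false

open Topology Filter Set Complex

namespace Horo

namespace Diagram

variable {C : Type} [TopologicalSpace C] [AddAction ℝ C] (D : Diagram C)

lemma nhdsSeam_pt (x : C) (t : unitInterval) : D.pt x ((t : ℝ) * D.wid x) = (x, t) := by
  have hw := D.wid_pos x
  unfold pt
  rw [mul_div_assoc, div_self hw.ne', mul_one, Set.projIcc_val]

/-- The open right box at `z`. -/
def nhdsSeamR (z : C) (r : ℝ) : Set (Y C) :=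
  {p | p.1 ∈ (fun u : ℝ => u +ᵥ z) '' Ioo (-r) r ∧ (p.2 : ℝ) * D.wid p.1 < r}

/-- The open left box at `x`. -/
def nhdsSeamL (x : C) (r : ℝ) : Set (Y C) :=
  {p | p.1 ∈ (fun u : ℝ => u +ᵥ x) '' Ioo (-r) r ∧ (1 - (p.2 : ℝ)) * D.wid p.1 < r}

lemma nhdsSeam_isOpenR [BaseSpace C] (z : C) (r : ℝ) (hr : 0 < r) :
    IsOpen (D.nhdsSeamR z r) := by
  unfold nhdsSeamR
  refine ((BaseSpace.isOpen_ball z r hr).preimage continuous_fst).inter ?_
  exact isOpen_lt ((continuous_subtype_val.comp continuous_snd).mul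
    (D.wid_cont.comp continuous_fst)) continuous_const

lemma nhdsSeam_isOpenL [BaseSpace C] (x : C) (r : ℝ) (hr : 0 < r) :
    IsOpen (D.nhdsSeamL x r) := by
  unfold nhdsSeamL
  refine ((BaseSpace.isOpen_ball x r hr).preimage continuous_fst).inter ?_
  exact isOpen_lt ((continuous_const.sub (continuous_subtype_val.comp continuous_snd)).mul
    (D.wid_cont.comp continuous_fst)) continuous_const

/-- The neighbourhood of a seam point. -/
def nhdsSeamN (y : C) (r : ℝ) : Set D.X :=
  {q | ∃ y', D.τ.SameCycle y y' ∧ ∃ v u : ℝ, 0 ≤ v ∧ v < r ∧ |u| < r ∧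
      (q = D.ptR y' v u ∨ q = D.ptL y' v u)}

lemma nhdsSeam_preimage {y : C} {r₀ r : ℝ} (hr₀ : D.GoodRad y r₀) (hr : 0 < r) (hrr : r ≤ r₀) :
    D.proj ⁻¹' D.nhdsSeamN y r =
      ⋃ y' ∈ {y' | D.τ.SameCycle y y'}, (D.nhdsSeamR y' r ∪ D.nhdsSeamL (D.up.symm y') r) := by
  -- the value of the left base
  have B : ∀ z, D.τ.SameCycle y z → ∀ w : ℝ, |w| ≤ r₀ → D.up (w +ᵥ D.up.symm z) =
      if 0 < w then w +ᵥ z else if w = 0 then z else w +ᵥ D.τ z := by
    intro z hz w hw
    split_ifs with h1 h2
    · exact hr₀.up_pos z hz w h1 (by rw [abs_of_pos h1] at hw; exact hw)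
    · rw [h2, zero_vadd, Equiv.apply_symm_apply]
    · have h3 : w < 0 := lt_of_le_of_ne (not_lt.1 h1) h2
      have := hr₀.up_neg z hz (-w) (by linarith) (by rw [abs_of_neg h3] at hw; exact hw)
      rwa [neg_neg] at this
  -- a seam point whose base is `w + z` lies in one of the boxes
  have key : ∀ p : Y C, IsSeam p → ∀ z, D.τ.SameCycle y z → ∀ w : ℝ, |w| < r →
      D.base p = w +ᵥ z →
      p ∈ ⋃ y' ∈ {y' | D.τ.SameCycle y y'}, (D.nhdsSeamR y' r ∪ D.nhdsSeamL (D.up.symm y') r) := by
    intro p hp z hz w hw hb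
    have hw' := abs_lt.1 hw
    by_cases h0 : (p.2 : ℝ) = 0
    · have hb' : p.1 = w +ᵥ z := by
        unfold base at hb; rw [if_pos h0] at hb; exact hb
      refine mem_biUnion (show z ∈ {y' | D.τ.SameCycle y y'} from hz) (Or.inl ⟨⟨w, hw', hb'.symm⟩, ?_⟩)
      rw [h0, zero_mul]; exact hr
    · have h1 : (p.2 : ℝ) = 1 := hp.resolve_left h0
      have hb' : D.up p.1 = w +ᵥ z := by
        unfold base at hb; rw [if_neg h0] at hb; exact hb
      -- find the cycle point
      have : ∃ z', D.τ.SameCycle y z' ∧ p.1 = w +ᵥ D.up.symm z' := by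
        rcases lt_trichotomy w 0 with h | h | h
        · obtain ⟨z₀, hz₀⟩ : ∃ z₀, D.τ z₀ = z := D.τ.surjective z
          have hc : D.τ.SameCycle y z₀ := by
            rw [← hz₀, Equiv.Perm.sameCycle_apply_right] at hz; exact hz
          refine ⟨z₀, hc, D.up.injective ?_⟩
          rw [hb', B z₀ hc w (by linarith), if_neg (by linarith), if_neg h.ne, hz₀]
        · refine ⟨z, hz, D.up.injective ?_⟩
          rw [hb', h, zero_vadd, zero_vadd, Equiv.apply_symm_apply]
        · refine ⟨z, hz, D.up.injective ?_⟩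
          rw [hb', B z hz w (by linarith), if_pos h]
      obtain ⟨z', hz', hp1⟩ := this
      refine mem_biUnion (show z' ∈ {y' | D.τ.SameCycle y y'} from hz')
        (Or.inr ⟨⟨w, hw', hp1.symm⟩, ?_⟩)
      rw [h1, sub_self, zero_mul]; exact hr
  ext p
  constructor
  · rintro ⟨y', hy', v, u, hv, hvr, hu, h | h⟩
    · have w1 := hr₀.wid_right y' hy'
      have W1 := D.wid_pos y'
      have t1 := D.classes_pt_right (x := y') u v hv (by linarith)
      unfold ptR at h
      rw [D.classes_proj_eq] at h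
      rcases h with h | ⟨h1, h2, h3⟩
      · refine mem_biUnion (show y' ∈ {y' | D.τ.SameCycle y y'} from hy')
          (Or.inl ⟨⟨u, abs_lt.1 hu, ?_⟩, ?_⟩)
        · rw [h]; rfl
        · have e1 : (p.2 : ℝ) = v / D.wid y' := by rw [h, t1]
          have e2 : p.1 = u +ᵥ y' := by rw [h]; rfl
          rw [e1, e2, D.wid_vadd, div_mul_cancel₀ _ W1.ne']
          exact hvr
      · have hv0 : v = 0 := by
          rcases h2 with h2 | h2
          · rw [t1] at h2
            rcases div_eq_zero_iff.1 h2 with h | h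
            · exact h
            · linarith
          · rw [t1, div_eq_one_iff_eq W1.ne'] at h2
            linarith
        have hb : D.base (D.pt (u +ᵥ y') v) = u +ᵥ y' := by
          unfold base
          rw [if_pos (by rw [t1, hv0, zero_div])]
          rfl
        rw [hb] at h3
        by_cases hu0 : u = 0
        · have h4 : D.τ.SameCycle y (D.base p) := by
            rw [hu0, zero_vadd] at h3
            exact hy'.trans h3.symm
          exact key p h1 _ h4 0 (by rw [abs_zero]; exact hr) (by rw [zero_vadd])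
        · have h4 := h3.eq_of_right (D.classes_fixed hr₀ hy' hu0 (by linarith))
          exact key p h1 y' hy' u hu h4
    · have w1 := hr₀.wid_left y' hy'
      have W1 := D.wid_pos (D.up.symm y')
      have t1 := D.classes_pt_left (x := D.up.symm y') u v hv (by linarith)
      unfold ptL at h
      rw [D.classes_proj_eq] at h
      rcases h with h | ⟨h1, h2, h3⟩
      · refine mem_biUnion (show y' ∈ {y' | D.τ.SameCycle y y'} from hy')
          (Or.inr ⟨⟨u, abs_lt.1 hu, ?_⟩, ?_⟩)
        · rw [h]; rfl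
        · have e1 : (p.2 : ℝ) = 1 - v / D.wid (D.up.symm y') := by rw [h, t1]
          have e2 : p.1 = u +ᵥ D.up.symm y' := by rw [h]; rfl
          rw [e1, e2, D.wid_vadd, sub_sub_cancel, div_mul_cancel₀ _ W1.ne']
          exact hvr
      · have hv0 : v = 0 := by
          rcases h2 with h2 | h2
          · rw [t1] at h2
            have : v / D.wid (D.up.symm y') = 1 := by linarith
            rw [div_eq_one_iff_eq W1.ne'] at this
            linarith
          · rw [t1] at h2
            have : v / D.wid (D.up.symm y') = 0 := by linarith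
            rcases div_eq_zero_iff.1 this with h | h
            · exact h
            · linarith
        have hb : D.base (D.pt (u +ᵥ D.up.symm y') (D.wid (D.up.symm y') - v))
            = D.up (u +ᵥ D.up.symm y') := by
          unfold base
          rw [if_neg (by rw [t1, hv0, zero_div]; norm_num)]
          rfl
        rw [hb, B y' hy' u (by linarith)] at h3
        have hτ : D.τ.SameCycle y (D.τ y') := by
          rw [Equiv.Perm.sameCycle_apply_right]; exact hy'
        split_ifs at h3 with g1 g2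
        · have h4 := h3.eq_of_right (D.classes_fixed hr₀ hy' g1.ne' (by linarith))
          exact key p h1 y' hy' u hu h4
        · have h4 : D.τ.SameCycle y (D.base p) := hy'.trans h3.symm
          exact key p h1 _ h4 0 (by rw [abs_zero]; exact hr) (by rw [zero_vadd])
        · have h4 := h3.eq_of_right (D.classes_fixed hr₀ hτ g2 (by linarith))
          exact key p h1 _ hτ u hu h4
  · intro h
    obtain ⟨y', hy', h⟩ := mem_iUnion₂.1 h
    rcases h with ⟨⟨u, hu, hp⟩, ht⟩ | ⟨⟨u, hu, hp⟩, ht⟩
    · refine ⟨y', hy', (p.2 : ℝ) * D.wid p.1, u, ?_, ht, abs_lt.2 hu, Or.inl ?_⟩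
      · exact mul_nonneg p.2.2.1 (D.wid_pos _).le
      · unfold ptR
        simp only at hp
        rw [hp, D.nhdsSeam_pt]
    · refine ⟨y', hy', (1 - (p.2 : ℝ)) * D.wid p.1, u, ?_, ht, abs_lt.2 hu, Or.inr ?_⟩
      · exact mul_nonneg (by linarith [p.2.2.2]) (D.wid_pos _).le
      · unfold ptL
        simp only at hp
        have e : D.wid (D.up.symm y') = D.wid p.1 := by rw [← hp, D.wid_vadd]
        rw [hp, e]
        have : D.wid p.1 - (1 - (p.2 : ℝ)) * D.wid p.1 = (p.2 : ℝ) * D.wid p.1 := by ring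
        rw [this, D.nhdsSeam_pt]

lemma nhdsSeam_isOpenN [BaseSpace C] {y : C} {r₀ r : ℝ} (hr₀ : D.GoodRad y r₀) (hr : 0 < r)
    (hrr : r ≤ r₀) : IsOpen (D.nhdsSeamN y r) := by
  have h : IsOpen (D.proj ⁻¹' D.nhdsSeamN y r) := by
    rw [D.nhdsSeam_preimage hr₀ hr hrr]
    exact isOpen_biUnion fun y' _ =>
      (D.nhdsSeam_isOpenR y' r hr).union (D.nhdsSeam_isOpenL _ r hr)
  exact (isQuotientMap_quotient_mk' (s := D.setoid)).isOpen_preimage.1 h

end Diagram

open Diagram

/-- Neighbourhoods of seam points. -/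
theorem nhdsSeam (C : Type) [TopologicalSpace C] [AddAction ℝ C] (hG : Stmt_goodRad C) :
    Stmt_nhdsSeam C := by
  intro _ _ _ D y r hr
  obtain ⟨r₀, hr₀⟩ := hG D y
  have hm : 0 < min r r₀ := lt_min hr hr₀.pos
  have ho := D.nhdsSeam_isOpenN hr₀ hm (min_le_right _ _)
  refine mem_of_superset (ho.mem_nhds ?_) ?_
  · refine ⟨y, Equiv.Perm.SameCycle.refl _ _, 0, 0, le_rfl, hm, by rw [abs_zero]; exact hm,
      Or.inl ?_⟩
    unfold ptR
    rw [zero_vadd]
  · rintro q ⟨y', hy', v, u, hv, hvr, hu, h⟩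
    exact ⟨y', hy', v, u, hv, hvr.trans_le (min_le_left _ _), hu.trans_le (min_le_left _ _), h⟩

end Horo
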