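import Pool.Agent.Horo.DStmts
import Pool.Agent.Horo.D.nhdsSeam

set_option autoImplicit false

open Topology Filter Set Complex

namespace Horo

open Diagram

/-- Saturated open sets of inner parameters have open image. -/
theorem openPsi (C : Type) [TopologicalSpace C] [AddAction ℝ C] (hR : Stmt_closedRel C)
    (hF : Stmt_finSupp C) (hc : Stmt_contPsi C) : Stmt_openPsi C := by
  intro _ _ _ D y r hr U hU hin hsat
  haveI : T2Space D.X := t2Space_quotient D.setoid (hR D)
  have hcont := (hc D y r hr).1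
  have hN : IsOpen (D.nhdsSeamN y r) := D.nhdsSeam_isOpenN hr hr.pos le_rfl
  have hcl : IsClosed (D.Psi y r '' Uᶜ) := (hU.isClosed_compl.isCompact.image hcont).isClosed
  have heq : D.Psi y r '' U = D.nhdsSeamN y r ∩ (D.Psi y r '' Uᶜ)ᶜ := by
    ext q
    constructor
    · rintro ⟨a, ha, rfl⟩
      refine ⟨?_, ?_⟩
      · obtain ⟨h1, h2⟩ := hin a ha
        refine ⟨(D.τ ^ (a.1 : ℕ)) y, ?_, a.2.2.1, a.2.2.2, a.2.2.1.2.1, h1, h2, ?_⟩
        · exact ⟨(a.1 : ℕ), by simp⟩
        · unfold Psi
          by_cases hb : a.2.1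
          · left; rw [if_pos hb]
          · right; rw [if_neg hb]
      · rintro ⟨b, hb, hab⟩
        exact hb (hsat a b ha hab.symm)
    · rintro ⟨⟨y', hy', v, u, hv, hvr, hu, h⟩, h2⟩
      obtain ⟨j, hj, hjy⟩ := (hF D).2.2 y y' hy'
      have hu' := abs_lt.1 hu
      rcases h with h | h
      · let a : KK (D.len y) r := (⟨j, hj⟩, true, ⟨v, hv, hvr.le⟩, ⟨u, hu'.1.le, hu'.2.le⟩)
        have ha : D.Psi y r a = q := by
          rw [h]
          unfold Psi
          rw [if_pos rfl]
          show D.ptR ((D.τ ^ j) y) v u = _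
          rw [hjy]
        by_cases haU : a ∈ U
        · exact ⟨a, haU, ha⟩
        · exact absurd ⟨a, haU, ha⟩ h2
      · let a : KK (D.len y) r := (⟨j, hj⟩, false, ⟨v, hv, hvr.le⟩, ⟨u, hu'.1.le, hu'.2.le⟩)
        have ha : D.Psi y r a = q := by
          rw [h]
          unfold Psi
          rw [if_neg (by simp [a])]
          show D.ptL ((D.τ ^ j) y) v u = _
          rw [hjy]
        by_cases haU : a ∈ U
        · exact ⟨a, haU, ha⟩
        · exact absurd ⟨a, haU, ha⟩ h2
  rw [heq]
  exact hN.inter hcl.isOpen_compl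

end Horo
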