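import Pool.Agent.Horo.DStmts

/-! Two functions that increase as primitives differ by a locally constant function. -/

open Topology Filter Set Complex

namespace Horo

theorem primCompat_rep {C : Type} [TopologicalSpace C] [AddAction ℝ C] (D : Diagram C) (q : D.X) :
    (∃ x s, 0 < s ∧ s < D.wid x ∧ q = D.proj (D.pt x s)) ∨ ∃ y, q = D.proj (D.pt y 0) := by
  induction q using Quotient.inductionOn with
  | _ p =>
  obtain ⟨x, t, ht⟩ := p
  have hw := D.wid_pos x
  by_cases h0 : t = 0
  · right
    refine ⟨x, ?_⟩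
    subst h0
    show Quotient.mk D.setoid _ = Quotient.mk D.setoid _
    congr 1
    unfold Diagram.pt
    ext
    · rfl
    · simp
  · by_cases h1 : t = 1
    · right
      refine ⟨D.up x, ?_⟩
      subst h1
      show Quotient.mk D.setoid _ = Quotient.mk D.setoid _
      apply Quotient.sound
      show D.Rel _ _
      right
      have hz : ((D.pt (D.up x) 0).2 : ℝ) = 0 := by
        unfold Diagram.pt
        simp
      refine ⟨Or.inr rfl, Or.inl hz, ?_⟩
      unfold Diagram.base
      rw [if_pos hz, if_neg (by norm_num)]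
      exact Equiv.Perm.SameCycle.refl _ _
    · left
      have ht0 : 0 < t := lt_of_le_of_ne ht.1 (Ne.symm h0)
      have ht1 : t < 1 := lt_of_le_of_ne ht.2 h1
      refine ⟨x, t * D.wid x, mul_pos ht0 hw, ?_, ?_⟩
      · nlinarith
      · show Quotient.mk D.setoid _ = Quotient.mk D.setoid _
        congr 1
        unfold Diagram.pt
        rw [mul_div_assoc, div_self hw.ne', mul_one, projIcc_of_mem zero_le_one ht]

theorem primCompat (C : Type) [TopologicalSpace C] [AddAction ℝ C] (hInt : Stmt_nhdsInt C)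
    (hSeam : Stmt_nhdsSeam C) : Stmt_primCompat C := by
  intro _ _ _ D P P' S S' hP hP' q hq
  rcases primCompat_rep D q with ⟨x, s, hs0, hs1, rfl⟩ | ⟨y, rfl⟩
  · obtain ⟨r, hr, h1⟩ := hP.1 x s hs0 hs1 hq.1
    obtain ⟨r', hr', h2⟩ := hP'.1 x s hs0 hs1 hq.2
    have h3 := hInt D x s (min r r') hs0 hs1 (lt_min hr hr')
    filter_upwards [h3]
    rintro q' ⟨v, u, hv, hu, rfl⟩
    rw [h1 v u (hv.trans_le (min_le_left _ _)) (hu.trans_le (min_le_left _ _)),
      h2 v u (hv.trans_le (min_le_right _ _)) (hu.trans_le (min_le_right _ _))]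
    ring
  · obtain ⟨r, hr, h1⟩ := hP.2 y hq.1
    obtain ⟨r', hr', h2⟩ := hP'.2 y hq.2
    have h3 := hSeam D y (min r r') (lt_min hr hr')
    filter_upwards [h3]
    rintro q' ⟨y', hy', v, u, hv0, hv, hu, hq'⟩
    have a1 := h1 y' hy' v u hv0 (hv.trans_le (min_le_left _ _)) (hu.trans_le (min_le_left _ _))
    have a2 := h2 y' hy' v u hv0 (hv.trans_le (min_le_right _ _))
      (hu.trans_le (min_le_right _ _))
    rcases hq' with rfl | rfl
    · show P (D.proj (D.pt (u +ᵥ y') v)) - P' (D.proj (D.pt (u +ᵥ y') v)) = _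
      rw [a1.1, a2.1]
      ring
    · show P (D.proj (D.pt (u +ᵥ D.up.symm y') (D.wid (D.up.symm y') - v))) -
        P' (D.proj (D.pt (u +ᵥ D.up.symm y') (D.wid (D.up.symm y') - v))) = _
      rw [a1.2, a2.2]
      ring

end Horo
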