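import Pool.Agent.Horo.DStmts

/-! Elementary facts on principal roots. -/

set_option autoImplicit false

open Topology Filter Set Complex

namespace Horo

theorem roots_om (k : ℕ) (hk : 0 < k) : IsPrimitiveRoot (om k) k := by
  have := Complex.isPrimitiveRoot_exp k hk.ne'
  exact this

theorem roots_etpow (k : ℕ) (hk : 0 < k) : et k ^ k = -1 := by
  unfold et
  rw [← Complex.exp_nat_mul]
  have hk' : (k : ℂ) ≠ 0 := by exact_mod_cast hk.ne'
  have : (k : ℂ) * (Real.pi * Complex.I / k) = Real.pi * Complex.I := by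
    field_simp
  rw [this, Complex.exp_pi_mul_I]

theorem roots_etsq (k : ℕ) : et k * et k = om k := by
  unfold et om
  rw [← Complex.exp_add]
  congr 1
  ring

theorem roots_zero (k : ℕ) (hk : 0 < k) : rt k 0 = 0 := by
  unfold rt
  have hk' : (k : ℂ) ≠ 0 := by exact_mod_cast hk.ne'
  exact Complex.zero_cpow (inv_ne_zero hk')

theorem roots_pow (k : ℕ) (hk : 0 < k) (w : ℂ) : rt k w ^ k = w :=
  Complex.cpow_nat_inv_pow w hk.ne'

theorem roots_ne (k : ℕ) (hk : 0 < k) (w : ℂ) (hw : w ≠ 0) : rt k w ≠ 0 := by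
  intro h
  apply hw
  rw [← roots_pow k hk w, h, zero_pow hk.ne']

theorem roots_norm (k : ℕ) (hk : 0 < k) (w : ℂ) : ‖rt k w‖ ^ k = ‖w‖ := by
  rw [← norm_pow, roots_pow k hk]

theorem roots_cont (k : ℕ) (hk : 0 < k) (w : ℂ) (hw : w ∈ slitPlane ∨ w = 0) :
    ContinuousAt (rt k) w := by
  rcases hw with hw | hw
  · unfold rt
    exact (continuousAt_id).cpow continuousAt_const hw
  · rw [hw]
    unfold ContinuousAt
    rw [roots_zero k hk]
    rw [tendsto_zero_iff_norm_tendsto_zero]
    have h1 : Tendsto (fun w : ℂ => ‖w‖ ^ ((k : ℝ)⁻¹)) (𝓝 0) (𝓝 0) := by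
      have h2 : Continuous (fun w : ℂ => ‖w‖ ^ ((k : ℝ)⁻¹)) :=
        continuous_norm.rpow_const (fun _ => Or.inr (by positivity))
      have h3 := h2.tendsto 0
      have h4 : ((k : ℝ)⁻¹) ≠ 0 := by positivity
      simpa [Real.zero_rpow h4] using h3
    refine h1.congr fun w => ?_
    rw [← roots_norm k hk w, ← Real.rpow_natCast, ← Real.rpow_mul (norm_nonneg _),
      mul_inv_cancel₀ (by positivity), Real.rpow_one]

theorem roots_up (k : ℕ) (w : ℂ) (hw : 0 < w.im) :
    rt k (-w) * et k = rt k w := by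
  have hw0 : w ≠ 0 := by
    rintro rfl
    simp at hw
  have h1 : Complex.log (-w) = Complex.log w - Real.pi * Complex.I := by
    unfold Complex.log
    rw [norm_neg, Complex.arg_neg_eq_arg_sub_pi_of_im_pos hw]
    push_cast
    ring
  unfold rt et
  rw [Complex.cpow_def_of_ne_zero (neg_ne_zero.2 hw0), Complex.cpow_def_of_ne_zero hw0, h1,
    ← Complex.exp_add]
  congr 1
  ring

theorem roots_dn (k : ℕ) (w : ℂ) (hw : w.im < 0) :
    rt k (-w) * et k = rt k w * om k := by
  have hw0 : w ≠ 0 := by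
    rintro rfl
    simp at hw
  have h1 : Complex.log (-w) = Complex.log w + Real.pi * Complex.I := by
    unfold Complex.log
    rw [norm_neg, Complex.arg_neg_eq_arg_add_pi_of_im_neg hw]
    push_cast
    ring
  unfold rt et om
  rw [Complex.cpow_def_of_ne_zero (neg_ne_zero.2 hw0), Complex.cpow_def_of_ne_zero hw0, h1,
    ← Complex.exp_add, ← Complex.exp_add]
  congr 1
  ring

theorem roots_index (k : ℕ) (hk : 0 < k) (v a : ℂ) (ha : a ≠ 0) (h : v ^ k = a ^ k) :
    ∃ j : ℕ, j < k ∧ a * om k ^ j = v := by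
  have : NeZero k := ⟨hk.ne'⟩
  have h1 : (v / a) ^ k = 1 := by
    rw [div_pow, h, div_self (pow_ne_zero _ ha)]
  obtain ⟨j, hj, hj'⟩ := (roots_om k hk).eq_pow_of_pow_eq_one h1
  refine ⟨j, hj, ?_⟩
  rw [hj']
  field_simp

theorem roots : Stmt_roots := by
  intro k hk
  refine ⟨roots_zero k hk, roots_pow k hk, roots_cont k hk, roots_up k, roots_dn k,
    (roots_om k hk).pow_eq_one, roots_etpow k hk, ?_, ?_, ?_⟩
  · intro w hw i j hi hj h
    have h1 := mul_left_cancel₀ (roots_ne k hk w hw) h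
    exact (roots_om k hk).pow_inj hi hj h1
  · intro v w hv h
    have hw : w ≠ 0 := by
      rw [← h]
      exact pow_ne_zero _ hv
    exact roots_index k hk v _ (roots_ne k hk w hw) (by rw [roots_pow k hk, h])
  · intro v w hv h
    have hw : w ≠ 0 := by
      rw [← h]
      exact pow_ne_zero _ hv
    have he : et k ≠ 0 := Complex.exp_ne_zero _
    exact roots_index k hk v _ (mul_ne_zero (roots_ne k hk _ (neg_ne_zero.2 hw)) he)
      (by rw [mul_pow, roots_pow k hk, roots_etpow k hk, h]; ring)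

end Horo
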