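import Pool.Agent.Horo.DStmts

set_option autoImplicit false

open Topology Filter Set Complex

namespace Horo

namespace Diagram

variable {C : Type} [TopologicalSpace C] [AddAction ℝ C] (D : Diagram C)

lemma surjPsi_bend_zero (x : C) : D.bend x 0 = 0 := by
  have := D.bend_add x 0 0
  rw [zero_vadd, add_zero] at this
  linarith

lemma surjPsi_kappa (x : C) : 0 ≤ D.κ := by
  have := D.bend_le x 1
  rw [abs_one, mul_one] at this
  exact (abs_nonneg _).trans this

lemma surjPsi_cycle (y : C) (j : ℕ) : D.τ.SameCycle y ((D.τ ^ j) y) :=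
  ⟨(j : ℤ), by rw [zpow_natCast]⟩

lemma surjPsi_pow_len (y : C) : (D.τ ^ D.len y) y = y := by
  unfold len
  rw [← Equiv.Perm.iterate_eq_pow]
  exact Function.iterate_minimalPeriod

end Diagram

open Diagram

lemma surjPsi_norm_pow {z : ℂ} {k : ℕ} (hk : 0 < k) (hz : ‖z‖ ≤ 1) : ‖z ^ k‖ ≤ ‖z‖ := by
  rw [norm_pow]
  calc ‖z‖ ^ k ≤ ‖z‖ ^ 1 := pow_le_pow_of_le_one (norm_nonneg _) hz hk
    _ = ‖z‖ := pow_one _

/-- The coordinate is onto a disc, and small values occur only inside. -/
theorem surjPsi (C : Type) [TopologicalSpace C] [AddAction ℝ C] (hroots : Stmt_roots)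
    (hfin : Stmt_finSupp C) : Stmt_surjPsi C := by
  intro _ _ _ D y r hr
  have hk : 0 < D.len y := (hfin D).2.1 y
  obtain ⟨h0, hpow, -, hpos, hneg, hom, het, -, hex, hex'⟩ := hroots (D.len y) hk
  have hκ := D.surjPsi_kappa y
  have hκ1 := D.κ_lt_one
  have hr0 := hr.pos
  have hr1 := hr.le_one
  set k := D.len y with hkdef
  set c : ℕ → C := fun j => (D.τ ^ j) y with hc
  have hcy : ∀ j, D.τ.SameCycle y (c j) := fun j => D.surjPsi_cycle y j
  have hck : c k = c 0 := by
    simp only [hc, hkdef, D.surjPsi_pow_len, pow_zero, Equiv.Perm.one_apply]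
  have hcs : ∀ j, D.τ (c j) = c (j + 1) := by
    intro j
    simp only [hc, pow_succ', Equiv.Perm.mul_apply]
  have hlt : (1 - D.κ) * r ≤ 1 := by nlinarith
  have hle : (1 - D.κ) * r ≤ r := by nlinarith
  -- parameters
  have hR : ∀ (j : ℕ) (hj : j < k) (v u : ℝ) (hv : v ∈ Icc (0 : ℝ) r) (hu : u ∈ Icc (-r) r),
      D.zeta y r (⟨j, hj⟩, true, ⟨v, hv⟩, ⟨u, hu⟩) = rt k (D.devR (c j) v u) * om k ^ j := by
    intro j hj v u hv hu
    rfl
  have hL : ∀ (j : ℕ) (hj : j < k) (v u : ℝ) (hv : v ∈ Icc (0 : ℝ) r) (hu : u ∈ Icc (-r) r),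
      D.zeta y r (⟨j, hj⟩, false, ⟨v, hv⟩, ⟨u, hu⟩) =
        rt k (-D.devL (c j) v u) * et k * om k ^ j := by
    intro j hj v u hv hu
    rfl
  constructor
  · intro w hw
    by_cases hw0 : w = 0
    · refine ⟨(⟨0, hk⟩, true, ⟨0, le_rfl, hr0.le⟩, ⟨0, by linarith, hr0.le⟩), ?_⟩
      rw [hR]
      have : D.devR (c 0) 0 0 = 0 := by
        apply Complex.ext
        · simp [Diagram.devR, D.surjPsi_bend_zero]
        · simp [Diagram.devR]
      rw [this, h0, hw0, zero_mul]
    have hw1 : ‖w‖ ≤ 1 := (hw.le).trans hlt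
    set W := w ^ k with hW
    have hWn : ‖W‖ < (1 - D.κ) * r := lt_of_le_of_lt (surjPsi_norm_pow hk hw1) hw
    have hre : |W.re| < (1 - D.κ) * r := lt_of_le_of_lt (Complex.abs_re_le_norm W) hWn
    have him : |W.im| < (1 - D.κ) * r := lt_of_le_of_lt (Complex.abs_im_le_norm W) hWn
    have hu : W.im ∈ Icc (-r) r := by
      have := abs_lt.1 (him.trans_le hle)
      exact ⟨this.1.le, this.2.le⟩
    have hbend : ∀ x, |D.bend x W.im| ≤ D.κ * r := by
      intro x
      refine (D.bend_le x _).trans ?_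
      exact mul_le_mul_of_nonneg_left (him.le.trans hle) hκ
    have hx : ∀ x, |W.re - D.bend x W.im| ≤ r := by
      intro x
      have h1 := abs_sub (W.re) (D.bend x W.im)
      have h2 := hbend x
      nlinarith
    -- right half disc
    have keyR : ∀ j, j < k → rt k W * om k ^ j = w → 0 ≤ W.re - D.bend (c j) W.im →
        ∃ a, D.zeta y r a = w := by
      intro j hj hjw hx0
      refine ⟨(⟨j, hj⟩, true, ⟨W.re - D.bend (c j) W.im, hx0, (le_abs_self _).trans (hx _)⟩,
        ⟨W.im, hu⟩), ?_⟩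
      rw [hR]
      have : D.devR (c j) (W.re - D.bend (c j) W.im) W.im = W := by
        apply Complex.ext
        · simp [Diagram.devR]
        · simp [Diagram.devR]
      rw [this, hjw]
    have keyL : ∀ j, j < k → rt k (-W) * et k * om k ^ j = w →
        W.re - D.bend (D.up.symm (c j)) W.im ≤ 0 → ∃ a, D.zeta y r a = w := by
      intro j hj hjw hx0
      have h1 := (abs_le.1 (hx (D.up.symm (c j)))).1
      refine ⟨(⟨j, hj⟩, false, ⟨-(W.re - D.bend (D.up.symm (c j)) W.im), by linarith,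
        by linarith⟩, ⟨W.im, hu⟩), ?_⟩
      rw [hL]
      have : D.devL (c j) (-(W.re - D.bend (D.up.symm (c j)) W.im)) W.im = W := by
        apply Complex.ext
        · simp [Diagram.devL]
        · simp [Diagram.devL]
      rw [this, hjw]
    rcases lt_trichotomy W.im 0 with hi | hi | hi
    · obtain ⟨j, hj, hjw⟩ := hex w W hw0 hW.symm
      rcases le_total 0 (W.re - D.bend (c j) W.im) with hx0 | hx0
      · exact keyR j hj hjw hx0
      · -- the left half disc before `c j`
        obtain ⟨j', hj', hjj, hoo⟩ : ∃ j', j' < k ∧ c (j' + 1) = c j ∧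
            om k ^ (j' + 1) = om k ^ j := by
          rcases Nat.eq_zero_or_pos j with rfl | hj0
          · refine ⟨k - 1, by omega, ?_, ?_⟩
            · rw [Nat.sub_add_cancel hk, hck]
            · rw [Nat.sub_add_cancel hk, hom, pow_zero]
          · refine ⟨j - 1, by omega, ?_, ?_⟩ <;> rw [Nat.sub_add_cancel hj0]
        have hbe : D.bend (D.up.symm (c j')) W.im = D.bend (c j) W.im := by
          have := hr.bend_neg (c j') (hcy j') (-W.im) (by linarith) (by
            have := hu.1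
            linarith)
          rw [neg_neg, hcs, hjj] at this
          exact this
        refine keyL j' hj' ?_ (by rw [hbe]; exact hx0)
        rw [hneg W hi, ← hjw, ← hoo, pow_succ']
        ring
    · rcases le_or_gt 0 W.re with h | h
      · obtain ⟨j, hj, hjw⟩ := hex w W hw0 hW.symm
        refine keyR j hj hjw ?_
        rw [hi, D.surjPsi_bend_zero]
        linarith
      · obtain ⟨j, hj, hjw⟩ := hex' w W hw0 hW.symm
        refine keyL j hj hjw ?_
        rw [hi, D.surjPsi_bend_zero]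
        linarith
    · obtain ⟨j, hj, hjw⟩ := hex w W hw0 hW.symm
      rcases le_total 0 (W.re - D.bend (c j) W.im) with hx0 | hx0
      · exact keyR j hj hjw hx0
      · have hbe : D.bend (D.up.symm (c j)) W.im = D.bend (c j) W.im :=
          hr.bend_pos (c j) (hcy j) W.im hi.le hu.2
        refine keyL j hj ?_ (by rw [hbe]; exact hx0)
        rw [hpos W hi, hjw]
  · rintro ⟨⟨j, hj⟩, b, ⟨v, hv⟩, ⟨u, hu⟩⟩ ha
    show v < r ∧ |u| < r
    have key : ∀ (Z : ℂ) (β s : ℝ), ‖Z ^ k‖ = ‖(⟨s * v + β, u⟩ : ℂ)‖ → ‖Z‖ < (1 - D.κ) * r →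
        |β| ≤ D.κ * |u| → |s| = 1 → v < r ∧ |u| < r := by
      intro Z β s hZ hZr hβ hs
      have h1 : ‖(⟨s * v + β, u⟩ : ℂ)‖ < (1 - D.κ) * r := by
        rw [← hZ]
        exact lt_of_le_of_lt (surjPsi_norm_pow hk (hZr.le.trans hlt)) hZr
      have h2 : |u| < (1 - D.κ) * r := lt_of_le_of_lt (Complex.abs_im_le_norm ⟨s * v + β, u⟩) h1
      have h3 : |s * v + β| < (1 - D.κ) * r :=
        lt_of_le_of_lt (Complex.abs_re_le_norm ⟨s * v + β, u⟩) h1
      have h4 : |u| < r := h2.trans_le hle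
      refine ⟨?_, h4⟩
      have h5 : v = |s * v| := by
        rw [abs_mul, hs, one_mul, abs_of_nonneg hv.1]
      have h6 : |s * v| ≤ |s * v + β| + |β| := by
        calc |s * v| = |(s * v + β) - β| := by rw [add_sub_cancel_right]
          _ ≤ |s * v + β| + |β| := abs_sub _ _
      have h7 : D.κ * |u| ≤ D.κ * r := mul_le_mul_of_nonneg_left h4.le hκ
      rw [h5]
      nlinarith
    cases b
    · rw [hL] at ha
      refine key _ (D.bend (D.up.symm (c j)) u) (-1) ?_ ha (D.bend_le _ _) (by simp)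
      have : (rt k (-D.devL (c j) v u) * et k * om k ^ j) ^ k = D.devL (c j) v u := by
        rw [mul_pow, mul_pow, hpow, het, ← pow_mul, mul_comm j k, pow_mul, hom, one_pow]
        ring
      rw [this]
      simp [Diagram.devL]
    · rw [hR] at ha
      refine key _ (D.bend (c j) u) 1 ?_ ha (D.bend_le _ _) (by simp)
      have : (rt k (D.devR (c j) v u) * om k ^ j) ^ k = D.devR (c j) v u := by
        rw [mul_pow, hpow, ← pow_mul, mul_comm j k, pow_mul, hom, one_pow]
        ring
      rw [this]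
      simp [Diagram.devR]

end Horo
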